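import Pool.Agent.NUMFH.Avg
import Pool.Agent.NUP.MF.Bulk2

/-!
# Rows at `± l / 2`: the density `P_h`, its field, the bulk constant

* `Pc_half`, `Pb_half`: `Re P(t + i l / 2) = (4 / π) cosh (16 t / 3) / cosh (8 t) = Pd t`;
* `Pd_le`, `le_Pd`: `(2 / π) e^{- 8 |t| / 3} ≤ Pd t ≤ (8 / π) e^{- 8 |t| / 3}`;
* `vb_eq`: `Re v(t + i b) = h(t, b) - (h(t, 3 l + b) + h(t, 3 l - b)) / 2`; `vd` for `b = l / 2`;
* `conv_Vd`: `∫ Pd(s) V(t - s) ds = vd t`;
* `Pbvb`: `∫ Pb(s) vb(x - s) ds` in terms of `H`;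
* `int_vdPd`: `∫ Pd vd = 5 log 2 - 3 log 3 + (5 / 2) log (1 + r)`;
* `bulk_h_match`: prefactor × mean field = bulk factor of two clusters.
-/

set_option autoImplicit false

open MeasureTheory Set Filter Topology Complex

noncomputable section

namespace NUMFH

open NUMF

lemma half_nonneg : 0 ≤ l / 2 := by have := l_pos; linarith

lemma half_pos' : 0 < l / 2 := by have := l_pos; linarith

lemma half_lt : l / 2 < l := by have := l_pos; linarith

/-- the density of the sea of rows at `± l / 2` -/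
def Pd (t : ℝ) : ℝ := 4 / Real.pi * (Real.cosh (16 / 3 * t) / Real.cosh (8 * t))

/-- the value of the analytic density on the line `Im = l / 2` -/
theorem Pc_half (t : ℝ) : Pc (t + (l / 2 : ℝ) * I) = ((4 / (√3 * Real.pi) : ℝ) : ℂ) *
    ((((√3 * Real.cosh (16 / 3 * t) : ℝ) : ℂ) - ((Real.sinh (16 / 3 * t) : ℝ) : ℂ) * I) /
      ((Real.cosh (8 * t) : ℝ) : ℂ)) := by
  have e0 : (8 / 3 : ℂ) * (t + (l / 2 : ℝ) * I) = ((8 / 3 * t : ℝ) : ℂ) + ((Real.pi / 6 : ℝ) : ℂ) * I := by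
    have : (l / 2 : ℝ) = 3 / 8 * (Real.pi / 6) := by unfold l; ring
    rw [this]
    push_cast
    ring
  set A : ℝ := Real.cosh (8 / 3 * t) with hA
  set B : ℝ := Real.sinh (8 / 3 * t) with hB
  have hAB : B ^ 2 = A ^ 2 - 1 := by rw [hA, hB]; exact Real.sinh_sq _
  have hA1 : 1 ≤ A := Real.one_le_cosh _
  have hs : (√3 : ℝ) ^ 2 = 3 := Real.sq_sqrt (by norm_num)
  have hs1 : 1 < √3 := by
    rw [show (1 : ℝ) = √1 by simp]
    exact Real.sqrt_lt_sqrt (by norm_num) (by norm_num)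
  have e1 : 2 * Complex.cosh (8 / 3 * (t + (l / 2 : ℝ) * I)) = ((√3 * A : ℝ) : ℂ) + ((B : ℝ) : ℂ) * I := by
    rw [e0, Complex.cosh_add, Complex.cosh_mul_I, Complex.sinh_mul_I, ← Complex.ofReal_cosh,
      ← Complex.ofReal_sinh, ← Complex.ofReal_cos, ← Complex.ofReal_sin, Real.cos_pi_div_six,
      Real.sin_pi_div_six, ← hA, ← hB]
    push_cast
    ring
  have c2 : Real.cosh (16 / 3 * t) = 2 * A ^ 2 - 1 := by
    rw [show 16 / 3 * t = 2 * (8 / 3 * t) by ring, Real.cosh_two_mul, ← hA, ← hB]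
    linarith
  have s2 : Real.sinh (16 / 3 * t) = 2 * A * B := by
    rw [show 16 / 3 * t = 2 * (8 / 3 * t) by ring, Real.sinh_two_mul, ← hA, ← hB]
    ring
  have c3 : Real.cosh (8 * t) = 4 * A ^ 3 - 3 * A := by
    rw [show 8 * t = 3 * (8 / 3 * t) by ring, Real.cosh_three_mul, ← hA]
  have hD : (4 * A ^ 3 - 3 * A : ℝ) ≠ 0 := by
    have := Real.cosh_pos (8 * t)
    rw [c3] at this
    exact this.ne'
  have n1 : ((√3 * A : ℝ) : ℂ) + ((B : ℝ) : ℂ) * I - 1 ≠ 0 := by
    intro h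
    have := congrArg Complex.re h
    simp at this
    nlinarith
  have n2 : ((√3 * A : ℝ) : ℂ) + ((B : ℝ) : ℂ) * I + 1 ≠ 0 := by
    intro h
    have := congrArg Complex.re h
    simp at this
    nlinarith
  unfold Pc
  rw [e1, c2, s2, c3, show (4 / ((√3 * Real.pi : ℝ) : ℂ) : ℂ) = ((4 / (√3 * Real.pi) : ℝ) : ℂ) by
    push_cast; rfl]
  congr 1
  have n3 : (((4 * A ^ 3 - 3 * A : ℝ)) : ℂ) ≠ 0 := by exact_mod_cast hD
  rw [div_add_div _ _ n1 n2, div_eq_div_iff (mul_ne_zero n1 n2) n3]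
  have qs : ((√3 : ℝ) : ℂ) ^ 2 = 3 := by exact_mod_cast congrArg (fun x : ℝ => (x : ℂ)) hs
  have qI := Complex.I_sq
  have qB : (B : ℂ) ^ 2 = (A : ℂ) ^ 2 - 1 := by exact_mod_cast congrArg (fun x : ℝ => (x : ℂ)) hAB
  push_cast
  linear_combination (-2 * (A : ℂ) * (2 * (A : ℂ) ^ 2 - 1) * B * I -
    (((√3 : ℝ) : ℂ) * (2 * (A : ℂ) ^ 2 - 1) - 2 * A * B * I) * (A : ℂ) ^ 2) * qs +
    (4 * ((√3 : ℝ) : ℂ) * (A : ℂ) ^ 2 * (B : ℂ) ^ 2 -
      (((√3 : ℝ) : ℂ) * (2 * (A : ℂ) ^ 2 - 1) - 2 * A * B * I) * (B : ℂ) ^ 2) * qI +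
    (-4 * ((√3 : ℝ) : ℂ) * (A : ℂ) ^ 2 +
      (((√3 : ℝ) : ℂ) * (2 * (A : ℂ) ^ 2 - 1) - 2 * A * B * I)) * qB

theorem Pb_half (t : ℝ) : Pb (l / 2) t = Pd t := by
  have hs : 0 < √3 := Real.sqrt_pos.2 (by norm_num)
  have hc := Real.cosh_pos (8 * t)
  unfold Pb
  rw [Pc_half, Complex.re_ofReal_mul, Complex.div_ofReal_re, Complex.sub_re, Complex.ofReal_re]
  unfold Pd
  simp only [mul_re, ofReal_re, I_re, mul_zero, ofReal_im, I_im, mul_one, sub_self, sub_zero]
  have := Real.pi_pos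
  field_simp

lemma Pd_pos (t : ℝ) : 0 < Pd t := by
  unfold Pd
  have := Real.cosh_pos (8 * t)
  have := Real.cosh_pos (16 / 3 * t)
  have := Real.pi_pos
  positivity

lemma Pd_neg (t : ℝ) : Pd (-t) = Pd t := by
  unfold Pd
  rw [mul_neg, mul_neg, Real.cosh_neg, Real.cosh_neg]

lemma Pd_contDiff : ContDiff ℝ ⊤ Pd := by
  unfold Pd
  refine contDiff_const.mul (ContDiff.div ?_ ?_ fun t => (Real.cosh_pos _).ne')
  · exact Real.contDiff_cosh.comp (contDiff_const.mul contDiff_id)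
  · exact Real.contDiff_cosh.comp (contDiff_const.mul contDiff_id)

lemma Pd_cont : Continuous Pd := Pd_contDiff.continuous

lemma cosh_lo (x : ℝ) : Real.exp |x| / 2 ≤ Real.cosh x := by
  rw [← Real.cosh_abs, Real.cosh_eq]
  have := Real.exp_pos (-|x|)
  linarith

lemma cosh_hi (x : ℝ) : Real.cosh x ≤ Real.exp |x| := by
  rw [← Real.cosh_abs, Real.cosh_eq]
  have : Real.exp (-|x|) ≤ Real.exp |x| := Real.exp_le_exp.2 (by
    have := abs_nonneg x; linarith)
  linarith

lemma exp_quot (t : ℝ) : Real.exp |16 / 3 * t| = Real.exp (-(8 / 3) * |t|) * Real.exp |8 * t| := by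
  rw [← Real.exp_add, abs_mul, abs_mul, abs_of_pos (by norm_num : (0 : ℝ) < 16 / 3),
    abs_of_pos (by norm_num : (0 : ℝ) < 8)]
  congr 1
  ring

lemma Pd_le (t : ℝ) : Pd t ≤ 8 / Real.pi * Real.exp (-(8 / 3) * |t|) := by
  have h1 := cosh_hi (16 / 3 * t)
  have h2 := cosh_lo (8 * t)
  have h3 := Real.exp_pos (|8 * t|)
  have hc := Real.cosh_pos (8 * t)
  have hpi := Real.pi_pos
  rw [exp_quot] at h1
  have h4 : Real.cosh (16 / 3 * t) / Real.cosh (8 * t) ≤ 2 * Real.exp (-(8 / 3) * |t|) := by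
    rw [div_le_iff₀ hc]
    have h5 := Real.exp_pos (-(8 / 3) * |t|)
    nlinarith
  unfold Pd
  calc 4 / Real.pi * (Real.cosh (16 / 3 * t) / Real.cosh (8 * t)) ≤
      4 / Real.pi * (2 * Real.exp (-(8 / 3) * |t|)) := by gcongr
    _ = _ := by ring

lemma le_Pd (t : ℝ) : 2 / Real.pi * Real.exp (-(8 / 3) * |t|) ≤ Pd t := by
  have h1 := cosh_lo (16 / 3 * t)
  have h2 := cosh_hi (8 * t)
  have h3 := Real.exp_pos (|8 * t|)
  have hc := Real.cosh_pos (8 * t)
  have hpi := Real.pi_pos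
  rw [exp_quot] at h1
  have h4 : Real.exp (-(8 / 3) * |t|) / 2 ≤ Real.cosh (16 / 3 * t) / Real.cosh (8 * t) := by
    rw [le_div_iff₀ hc]
    have h5 := Real.exp_pos (-(8 / 3) * |t|)
    nlinarith
  unfold Pd
  calc 2 / Real.pi * Real.exp (-(8 / 3) * |t|) = 4 / Real.pi * (Real.exp (-(8 / 3) * |t|) / 2) := by
        ring
    _ ≤ _ := by gcongr

lemma Pd_integrable : Integrable Pd := by
  have h := Pb_integrable (b := l / 2) half_nonneg half_lt
  simpa only [show Pb (l / 2) = Pd from funext Pb_half] using h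

theorem integral_Pd : ∫ t, Pd t = 1 := by
  have h := integral_Pb (b := l / 2) half_nonneg half_lt
  simpa only [Pb_half] using h

/-- transform of `Pd` -/
theorem Pd_forward (k : ℝ) : Integrable (fun t => Pd t * Real.cos (k * t)) ∧
    ∫ t, Pd t * Real.cos (k * t) = Real.cosh (k * (l / 2)) / (2 * ck1 k - 1) := by
  have h := Pb_forward (b := l / 2) half_nonneg half_lt k
  simpa only [Pb_half] using h

/-! ### the field -/

/-- the field of the sea of rows at `± b` -/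
def vb (b t : ℝ) : ℝ := (NUMF.vc (t + b * I)).re

/-- the field of the sea of rows at `± l / 2` -/
def vd (t : ℝ) : ℝ := h t (l / 2) - (h t (7 / 2 * l) + h t (5 / 2 * l)) / 2

lemma cos_6l : Complex.cos (2 * ((3 * l : ℝ) : ℂ)) = -(r : ℂ) := by
  have h8 : (2 * ((3 * l : ℝ) : ℂ)) = ((2 * (3 * l) : ℝ) : ℂ) := by push_cast; ring
  rw [h8, ← Complex.ofReal_cos]
  have h9 : Real.cos (2 * (3 * l)) = -r := by
    have : 2 * (3 * l) = Real.pi - Real.pi / 4 := by unfold l; ring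
    rw [this, Real.cos_pi_sub, r_eq]
  rw [h9]
  push_cast
  rfl

lemma cosh_cos_prod (z : ℂ) (y : ℝ) : Complex.cosh (2 * z) + Complex.cos (2 * y) =
    2 * (Complex.cosh (z + y * I) * Complex.cosh (z - y * I)) := by
  rw [Complex.cosh_add, Complex.cosh_sub, Complex.cosh_mul_I, Complex.sinh_mul_I,
    Complex.cosh_two_mul, Complex.cos_two_mul]
  have q1 := Complex.cosh_sq z
  have q2 := Complex.sin_sq_add_cos_sq (y : ℂ)
  have q3 := Complex.I_sq
  linear_combination (1 - 2 * Complex.cos (y : ℂ) ^ 2) * q1 -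
    2 * Complex.sinh z ^ 2 * q2 + 2 * Complex.sinh z ^ 2 * Complex.sin (y : ℂ) ^ 2 * q3

/-- `2 log ‖cosh (t + i y)‖ = h t y - log 2` -/
lemma two_log_norm (t y : ℝ) (hne : 0 < Real.cosh (2 * t) + Real.cos (2 * y)) :
    2 * Real.log ‖Complex.cosh (t + y * I)‖ = h t y - Real.log 2 := by
  have h1 := norm_cosh_sq' t y
  have h2 : 2 * Real.log ‖Complex.cosh (t + y * I)‖ = Real.log (‖Complex.cosh (t + y * I)‖ ^ 2) := by
    rw [Real.log_pow]; push_cast; ring
  rw [h2, h1, Real.log_div hne.ne' (by norm_num)]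
  rfl

theorem vb_eq {b : ℝ} (hb0 : 0 ≤ b) (hb : b < l) (t : ℝ) :
    vb b t = h t b - (h t (3 * l + b) + h t (3 * l - b)) / 2 := by
  have hl := l_pos
  have hpi := eight_l
  have hcos : ∀ y : ℝ, |y| < 4 * l → 0 < Real.cosh (2 * t) + Real.cos (2 * y) := by
    intro y hy
    rw [abs_lt] at hy
    have h1 := Real.one_le_cosh (2 * t)
    have h2 : -1 < Real.cos (2 * y) := by
      have h3 : 0 < Real.cos y := Real.cos_pos_of_mem_Ioo ⟨by linarith, by linarith⟩
      rw [Real.cos_two_mul]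
      have : 0 < Real.cos y ^ 2 := by positivity
      linarith
    linarith
  have p1 := hcos b (by rw [abs_of_nonneg hb0]; linarith)
  have p2 := hcos (3 * l + b) (by rw [abs_of_nonneg (by linarith)]; linarith)
  have p3 := hcos (3 * l - b) (by rw [abs_of_nonneg (by linarith)]; linarith)
  have p4 := hcos (b - 3 * l) (by rw [abs_sub_comm, abs_of_nonneg (by linarith)]; linarith)
  have n1 := two_log_norm t b p1
  have n2 := two_log_norm t (3 * l + b) p2
  have n4 := two_log_norm t (b - 3 * l) p4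
  rw [show h t (b - 3 * l) = h t (3 * l - b) by
    rw [show b - 3 * l = -(3 * l - b) by ring, h_neg_right]] at n4
  have q : ∀ y : ℝ, 0 < Real.cosh (2 * t) + Real.cos (2 * y) → Complex.cosh (t + y * I) ≠ 0 := by
    intro y hy h0
    have h1 := norm_cosh_sq' t y
    rw [h0, norm_zero] at h1
    norm_num at h1
    linarith
  have g1 : Complex.cosh (2 * ((t : ℂ) + b * I)) + 1 =
      2 * (Complex.cosh ((t : ℂ) + b * I) * Complex.cosh ((t : ℂ) + b * I)) := by
    have := cosh_cos_prod ((t : ℂ) + b * I) 0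
    simpa using this
  have g2 : Complex.cosh (2 * ((t : ℂ) + b * I)) - r =
      2 * (Complex.cosh ((t : ℂ) + ((3 * l + b : ℝ) : ℂ) * I) *
        Complex.cosh ((t : ℂ) + ((b - 3 * l : ℝ) : ℂ) * I)) := by
    have := cosh_cos_prod ((t : ℂ) + b * I) (3 * l)
    rw [cos_6l] at this
    rw [sub_eq_add_neg, this]
    congr 3
    · push_cast; ring
    · push_cast; ring
  unfold vb
  rw [vc_re, g1, g2, norm_mul, norm_mul, norm_mul, norm_mul, Complex.norm_ofNat,
    Real.log_mul (by norm_num) (mul_ne_zero (norm_ne_zero_iff.2 (q b p1)) (norm_ne_zero_iff.2 (q b p1))),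
    Real.log_mul (by norm_num) (mul_ne_zero (norm_ne_zero_iff.2 (q _ p2)) (norm_ne_zero_iff.2 (q _ p4))),
    Real.log_mul (norm_ne_zero_iff.2 (q b p1)) (norm_ne_zero_iff.2 (q b p1)),
    Real.log_mul (norm_ne_zero_iff.2 (q _ p2)) (norm_ne_zero_iff.2 (q _ p4))]
  linarith

theorem vb_half (t : ℝ) : vb (l / 2) t = vd t := by
  rw [vb_eq half_nonneg half_lt]
  unfold vd
  rw [show 3 * l + l / 2 = 7 / 2 * l by ring, show 3 * l - l / 2 = 5 / 2 * l by ring]

/-- **`V * Pd = vd`** -/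
theorem conv_Vd (t : ℝ) : Integrable (fun s => Pd s * V (t - s)) ∧
    ∫ s, Pd s * V (t - s) = vd t := by
  have h := conv_Vb (b := l / 2) half_nonneg half_lt t
  have e : (vc (t + ((l / 2 : ℝ) : ℂ) * I)).re = vd t := vb_half t
  rw [e] at h
  simpa only [Pb_half] using h

lemma vd_neg (t : ℝ) : vd (-t) = vd t := by
  unfold vd
  rw [h_neg_left, h_neg_left, h_neg_left]

/-- the sea against its own field -/
theorem Pbvb {b : ℝ} (hb0 : 0 ≤ b) (hb : b ≤ l / 2) (x : ℝ) :
    Integrable (fun s => Pb b s * vb b (x - s)) ∧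
    ∫ s, Pb b s * vb b (x - s) = (H x (2 * b) + H x 0) / 2 -
      (H x (3 * l + 2 * b) + 2 * H x (3 * l) + H x (3 * l - 2 * b)) / 4 := by
  have hl := l_pos
  have hb' : b < l := lt_of_le_of_lt hb half_lt
  have i1 := Pbh_integrable hb0 hb' x b
  have i2 := Pbh_integrable hb0 hb' x (3 * l + b)
  have i3 := Pbh_integrable hb0 hb' x (3 * l - b)
  have e1 := Hb_eq hb0 hb' x (y := b) (by rw [abs_of_nonneg hb0]; linarith)
  have e2 := Hb_eq hb0 hb' x (y := 3 * l + b) (by rw [abs_of_nonneg (by linarith)]; linarith)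
  have e3 := Hb_eq hb0 hb' x (y := 3 * l - b) (by rw [abs_of_nonneg (by linarith)]; linarith)
  have hf : (fun s => Pb b s * vb b (x - s)) = fun s => Pb b s * h (x - s) b -
      (1 / 2 * (Pb b s * h (x - s) (3 * l + b)) + 1 / 2 * (Pb b s * h (x - s) (3 * l - b))) := by
    funext s
    rw [vb_eq hb0 hb']
    ring
  have i23 := (i2.const_mul (1 / 2)).add (i3.const_mul (1 / 2))
  rw [hf]
  refine ⟨i1.sub i23, ?_⟩
  have s1 := integral_sub i1 i23
  have s2 := integral_add (i2.const_mul (1 / 2)) (i3.const_mul (1 / 2))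
  simp only [Pi.add_apply] at s1 s2
  rw [s1, s2, integral_const_mul, integral_const_mul]
  unfold Hb at e1 e2 e3
  rw [e1, e2, e3, show b + b = 2 * b by ring, sub_self, show 3 * l + b + b = 3 * l + 2 * b by ring,
    show 3 * l + b - b = 3 * l by ring, show 3 * l - b + b = 3 * l by ring,
    show 3 * l - b - b = 3 * l - 2 * b by ring]
  ring

/-- `H` on the line `4 l` -/
theorem H_four (x : ℝ) : H x (4 * l) = h x (3 * l) + h x (2 * l) - H x l := by
  have hl := l_pos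
  have e3 := conv_h x (y := 3 * l) (by rw [abs_of_pos (by linarith)])
  have e2 := conv_h x (y := 2 * l) (by rw [abs_of_pos (by linarith)]; linarith)
  rw [show 3 * l + l = 4 * l by ring, show 3 * l - l = 2 * l by ring] at e3
  rw [show 2 * l + l = 3 * l by ring, show 2 * l - l = l by ring] at e2
  linarith

/-- logarithms used below -/
lemma logs : Real.log (1 - r) = - Real.log 2 - Real.log (1 + r) ∧
    Real.log (4 / 3) = 2 * Real.log 2 - Real.log 3 ∧ Real.log (3 / 2) = Real.log 3 - Real.log 2 ∧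
    Real.log (9 / 8) = 2 * Real.log 3 - 3 * Real.log 2 := by
  have hr := r_lt_one
  have hr0 := r_pos
  have hs : r ^ 2 = 1 / 2 := by
    unfold r
    rw [div_pow, Real.sq_sqrt (by norm_num)]; norm_num
  have l4 : Real.log 4 = 2 * Real.log 2 := by
    rw [show (4 : ℝ) = 2 ^ 2 by norm_num, Real.log_pow]; norm_num
  have l8 : Real.log 8 = 3 * Real.log 2 := by
    rw [show (8 : ℝ) = 2 ^ 3 by norm_num, Real.log_pow]; norm_num
  have l9 : Real.log 9 = 2 * Real.log 3 := by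
    rw [show (9 : ℝ) = 3 ^ 2 by norm_num, Real.log_pow]; norm_num
  refine ⟨?_, ?_, ?_, ?_⟩
  · have : (1 - r) * (1 + r) = 2⁻¹ := by linarith
    have h5 := congrArg Real.log this
    rw [Real.log_mul (by linarith) (by linarith), Real.log_inv] at h5
    linarith
  · rw [Real.log_div (by norm_num) (by norm_num), l4]
  · rw [Real.log_div (by norm_num) (by norm_num)]
  · rw [Real.log_div (by norm_num) (by norm_num), l8, l9]

/-- **the bulk constant of the two clusters** -/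
theorem int_vdPd : Integrable (fun s => Pd s * vd s) ∧
    ∫ s, Pd s * vd s = 5 * Real.log 2 - 3 * Real.log 3 + 5 / 2 * Real.log (1 + r) := by
  have hl := l_pos
  obtain ⟨i1, e1⟩ := Pbvb (b := l / 2) half_nonneg le_rfl 0
  have hf : (fun s => Pb (l / 2) s * vb (l / 2) (0 - s)) = fun s => Pd s * vd s := by
    funext s
    rw [Pb_half, vb_half, zero_sub, vd_neg]
  rw [hf] at i1
  refine ⟨i1, ?_⟩
  rw [← hf, e1, show 2 * (l / 2) = l by ring, show 3 * l + l = 4 * l by ring,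
    show 3 * l - l = 2 * l by ring, H_four]
  obtain ⟨b0, b1, b2, b3⟩ := H_zero
  obtain ⟨q1, q2, q3, q4⟩ := logs
  rw [b0, b1, b2, b3, h2, h3, mul_zero, Real.cosh_zero, Real.log_one, q1, q2, q3, q4]
  ring

/-- **mean field = bulk factor** for two clusters of `M` rows in each of the two groups -/
theorem bulk_h_match (M : ℕ) :
    (2 - √2) ^ (2 * M) * (4 + 2 * √2) ^ (2 * (M * (M - 1))) * 16 ^ (M ^ 2) *
      Real.exp ((2 * (M : ℝ)) ^ 2 * ∫ s, Pd s * vd s) =
    (2 / 3 * (2 + √2)) ^ (4 * M * (2 * M - 1)) * (8 / 3 * (1 + r)) ^ (4 * M ^ 2) *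
      (2 / 3) ^ (4 * M) := by
  have hr := r_lt_one
  have hr0 := r_pos
  have e2 : √2 = 2 * r := by unfold r; ring
  have p1 : 0 < 2 - √2 := by rw [e2]; linarith
  have p2 : 0 < 4 + 2 * √2 := by rw [e2]; linarith
  have p3 : 0 < 2 / 3 * (2 + √2) := by rw [e2]; linarith
  have p4 : 0 < 8 / 3 * (1 + r) := by linarith
  obtain ⟨q1, q2, q3, q4⟩ := logs
  have l1 : Real.log (2 - √2) = - Real.log (1 + r) := by
    rw [e2, show 2 - 2 * r = 2 * (1 - r) by ring, Real.log_mul (by norm_num) (by linarith), q1]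
    ring
  have l4 : Real.log 4 = 2 * Real.log 2 := by
    rw [show (4 : ℝ) = 2 ^ 2 by norm_num, Real.log_pow]; norm_num
  have l2 : Real.log (4 + 2 * √2) = 2 * Real.log 2 + Real.log (1 + r) := by
    rw [e2, show 4 + 2 * (2 * r) = 4 * (1 + r) by ring, Real.log_mul (by norm_num) (by linarith), l4]
  have l16 : Real.log 16 = 4 * Real.log 2 := by
    rw [show (16 : ℝ) = 2 ^ 4 by norm_num, Real.log_pow]; norm_num
  have l3 : Real.log (2 / 3 * (2 + √2)) = 2 * Real.log 2 - Real.log 3 + Real.log (1 + r) := by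
    rw [e2, show 2 / 3 * (2 + 2 * r) = 4 / 3 * (1 + r) by ring,
      Real.log_mul (by norm_num) (by linarith), q2]
  have l8 : Real.log (8 / 3 * (1 + r)) = 3 * Real.log 2 - Real.log 3 + Real.log (1 + r) := by
    rw [Real.log_mul (by norm_num) (by linarith), Real.log_div (by norm_num) (by norm_num),
      show (8 : ℝ) = 2 ^ 3 by norm_num, Real.log_pow]
    norm_num
  have l23 : Real.log (2 / 3) = Real.log 2 - Real.log 3 := Real.log_div (by norm_num) (by norm_num)
  apply Real.log_injOn_pos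
  · exact mul_pos (mul_pos (mul_pos (pow_pos p1 _) (pow_pos p2 _)) (by positivity)) (Real.exp_pos _)
  · exact mul_pos (mul_pos (pow_pos p3 _) (pow_pos p4 _)) (by positivity)
  · rw [Real.log_mul (mul_pos (mul_pos (pow_pos p1 _) (pow_pos p2 _)) (by positivity)).ne'
      (Real.exp_pos _).ne', Real.log_mul (mul_pos (pow_pos p1 _) (pow_pos p2 _)).ne' (by positivity),
      Real.log_mul (pow_pos p1 _).ne' (pow_pos p2 _).ne', Real.log_exp,
      Real.log_mul (mul_pos (pow_pos p3 _) (pow_pos p4 _)).ne' (by positivity),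
      Real.log_mul (pow_pos p3 _).ne' (pow_pos p4 _).ne', Real.log_pow, Real.log_pow, Real.log_pow,
      Real.log_pow, Real.log_pow, Real.log_pow, l1, l2, l16, l3, l8, l23, int_vdPd.2]
    rcases M with _ | n
    · simp
    · have a1 : 2 * (n + 1) - 1 = 2 * n + 1 := by omega
      rw [a1, Nat.add_sub_cancel]
      push_cast
      ring

end NUMFH

end
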