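import Pool.Agent.NUMFH.Ath
import Pool.Agent.NUSea.HMF2

/-!
# The mean field weights of the sea `Ph` (rows at `± l / 2`): closed form and bounds

`Agh a = (Ag (a + 1/2) + Ag (a - 1/2)) / 2`, `Th a = Agh a` (`a < 1/2`),
`(Ag (3/2 - a) + 2 Ag (a - 1/2)) / 2` (`1/2 ≤ a`), both equal to
`Tgh a t = (Ath (sin (θ + π/3)) C + 2 Ath (sin θ) C + Ath (sin (θ - π/3)) C) / 2`, `θ = π a / 3`.

* `Th_nonneg`, `Th_ge`, `Th_ge_Ph`: `Th a t ≥ (3/2) sin θ / C ≥ (3π/8) sin θ Ph t`;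
* `Agh_mono`, `Agh_lip`, `Agh_le`;
* `exp_Agh`: `exp (- 2 Agh a t) = ‖ψ(- (3/2 - a) l + i t)‖ / ‖ψ(- (3/2 + a) l + i t)‖`.
-/

set_option autoImplicit false

open MeasureTheory Set Filter Topology Complex

namespace NUMFH

open NUMF
open NUSea (Ph)
open NUHM (Agh Th)

noncomputable section

/-- the closed form -/
def Tgh (a t : ℝ) : ℝ := (Ath (Real.sin (ta a + Real.pi / 3)) (ch t) +
  2 * Ath (Real.sin (ta a)) (ch t) + Ath (Real.sin (ta a - Real.pi / 3)) (ch t)) / 2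

theorem Agh_eq {a : ℝ} (ha : |a| < 1 / 2) (t : ℝ) : Agh a t = Tgh a t := by
  obtain ⟨a1, a2⟩ := abs_lt.1 ha
  unfold NUHM.Agh
  rw [Ag_ath (a := a + 1 / 2) (by rw [abs_lt]; constructor <;> linarith),
    Ag_ath (a := a - 1 / 2) (by rw [abs_lt]; constructor <;> linarith)]
  have e1 : ta (a + 1 / 2) + Real.pi / 6 = ta a + Real.pi / 3 := by
    rw [ta_add, ta_half]; ring
  have e2 : ta (a + 1 / 2) - Real.pi / 6 = ta a := by
    rw [ta_add, ta_half]; ring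
  have e3 : ta (a - 1 / 2) + Real.pi / 6 = ta a := by
    rw [ta_eq, ta_eq]; ring
  have e4 : ta (a - 1 / 2) - Real.pi / 6 = ta a - Real.pi / 3 := by
    rw [ta_eq, ta_eq]; ring
  unfold Tg Tgh
  rw [e1, e2, e3, e4]
  ring

theorem Thi_eq {a : ℝ} (h1 : 1 / 2 < a) (h2 : a < 3 / 2) (t : ℝ) :
    (Ag (3 / 2 - a) t + 2 * Ag (a - 1 / 2) t) / 2 = Tgh a t := by
  rw [Ag_ath (a := 3 / 2 - a) (by rw [abs_lt]; constructor <;> linarith),
    Ag_ath (a := a - 1 / 2) (by rw [abs_lt]; constructor <;> linarith)]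
  have e1 : Real.sin (ta (3 / 2 - a) + Real.pi / 6) = Real.sin (ta a + Real.pi / 3) := by
    rw [← Real.sin_pi_sub]
    congr 1
    rw [ta_eq, ta_eq]; ring
  have e2 : Real.sin (ta (3 / 2 - a) - Real.pi / 6) = -Real.sin (ta a - Real.pi / 3) := by
    rw [← Real.sin_neg]
    congr 1
    rw [ta_eq, ta_eq]; ring
  have e3 : ta (a - 1 / 2) + Real.pi / 6 = ta a := by
    rw [ta_eq, ta_eq]; ring
  have e4 : ta (a - 1 / 2) - Real.pi / 6 = ta a - Real.pi / 3 := by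
    rw [ta_eq, ta_eq]; ring
  unfold Tg Tgh
  rw [e1, e2, e3, e4, Ath_neg]
  ring

/-- **closed form of `Th`** -/
theorem Th_eq {a : ℝ} (h0 : 0 ≤ a) (h1 : a ≤ 1) (h2 : a ≠ 1 / 2) (t : ℝ) : Th a t = Tgh a t := by
  rcases lt_or_gt_of_ne h2 with h | h
  · rw [NUHM.Th_lt h, Agh_eq (by rw [abs_lt]; constructor <;> linarith)]
  · rw [NUHM.Th_ge h.le, Thi_eq h (by linarith)]

/-! ### lower bounds -/

lemma sin_sum3 (θ : ℝ) : Real.sin (θ + Real.pi / 3) + Real.sin (θ - Real.pi / 3) = Real.sin θ := by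
  rw [Real.sin_add, Real.sin_sub, Real.cos_pi_div_three]
  ring

/-- **`Tgh a t ≥ (3/2) sin θ / C`** -/
theorem Tgh_ge {a : ℝ} (h0 : 0 ≤ a) (h1 : a ≤ 1) {t : ℝ} (h : a ≠ 1 / 2 ∨ t ≠ 0) :
    3 / 2 * Real.sin (ta a) / ch t ≤ Tgh a t := by
  have hpi := Real.pi_pos
  have hc := one_le_ch t
  have hc0 : 0 < ch t := by linarith
  have hta : ta a = Real.pi * a / 3 := ta_eq a
  have t0 : 0 ≤ ta a := by rw [hta]; positivity
  have t1 : ta a ≤ Real.pi / 3 := by rw [hta]; nlinarith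
  have s0 : 0 ≤ Real.sin (ta a) := Real.sin_nonneg_of_nonneg_of_le_pi t0 (by linarith)
  have s1 : Real.sin (ta a) < 1 := by
    have := sin_abs_lt (x := ta a) (by rw [abs_of_nonneg t0]; linarith)
    exact (abs_lt.1 this).2
  have s2 : 0 ≤ Real.sin (Real.pi / 3 - ta a) :=
    Real.sin_nonneg_of_nonneg_of_le_pi (by linarith) (by linarith)
  have es : Real.sin (ta a - Real.pi / 3) = -Real.sin (Real.pi / 3 - ta a) := by
    rw [← Real.sin_neg]; congr 1; ring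
  have e3 := sin_sum3 (ta a)
  rw [es] at e3
  have s3 : Real.sin (Real.pi / 3 - ta a) ≤ Real.sin (ta a + Real.pi / 3) := by linarith
  have s4 : Real.sin (ta a + Real.pi / 3) < ch t := by
    rcases h with h | h
    · refine lt_of_lt_of_le ?_ hc
      refine lt_of_le_of_ne (Real.sin_le_one _) fun he => h ?_
      -- `sin = 1` on `[π/3, 2π/3]` forces the angle `π/2`
      have h5 : Real.cos (ta a + Real.pi / 3) = 0 := by
        have := Real.sin_sq_add_cos_sq (ta a + Real.pi / 3)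
        rw [he] at this
        have h6 : Real.cos (ta a + Real.pi / 3) ^ 2 = 0 := by linarith
        exact pow_eq_zero_iff (two_ne_zero) |>.1 h6
      have h6 : Real.cos (ta a + Real.pi / 3) = Real.cos (Real.pi / 2) := by
        rw [h5, Real.cos_pi_div_two]
      have h7 := Real.injOn_cos (x₁ := ta a + Real.pi / 3) (x₂ := Real.pi / 2)
        ⟨by linarith, by linarith⟩ ⟨by linarith, by linarith⟩ h6
      have h8 : Real.pi * a / 3 + Real.pi / 3 = Real.pi / 2 := by rw [← hta]; exact h7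
      have h9 : Real.pi * (a - 1 / 2) = 0 := by linarith
      rcases mul_eq_zero.1 h9 with h10 | h10
      · linarith
      · linarith
    · exact lt_of_le_of_lt (Real.sin_le_one _) (one_lt_ch h)
  have k1 := Ath_sub_ge s2 s3 s4
  have k2 := Ath_ge s0 (lt_of_lt_of_le s1 hc)
  unfold Tgh
  rw [es, Ath_neg]
  have k3 : Real.sin (ta a + Real.pi / 3) - Real.sin (Real.pi / 3 - ta a) = Real.sin (ta a) := by linarith
  rw [k3] at k1
  have e4 : 3 / 2 * Real.sin (ta a) / ch t = (Real.sin (ta a) / ch t + 2 * (Real.sin (ta a) / ch t)) / 2 := by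
    ring
  rw [e4]
  linarith

/-- `Ph t ≤ (4/π) / C` -/
lemma Ph_le_inv (t : ℝ) : Ph t ≤ 4 / Real.pi / ch t := by
  have h1 := one_le_ch t
  have h2 := NUSea.d3_pos t
  have hpi := Real.pi_pos
  have hc : 0 < ch t := by linarith
  unfold NUSea.Ph
  rw [div_div, ← div_div 4 Real.pi (ch t), div_div]
  have : (2 * ch t ^ 2 - 1) / (ch t * (4 * ch t ^ 2 - 3)) ≤ 1 / ch t := by
    rw [div_le_div_iff₀ (mul_pos hc h2) hc]
    nlinarith [mul_nonneg hc.le (by nlinarith : (0:ℝ) ≤ 2 * ch t ^ 2 - 2)]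
  calc 4 / Real.pi * ((2 * ch t ^ 2 - 1) / (ch t * (4 * ch t ^ 2 - 3))) ≤ 4 / Real.pi * (1 / ch t) := by
        gcongr
    _ = 4 / (Real.pi * ch t) := by field_simp

/-- `(2/π) / C ≤ Ph t` -/
lemma le_Ph_inv (t : ℝ) : 2 / Real.pi / ch t ≤ Ph t := by
  have h1 := one_le_ch t
  have h2 := NUSea.d3_pos t
  have hpi := Real.pi_pos
  have hc : 0 < ch t := by linarith
  unfold NUSea.Ph
  have : 1 / 2 / ch t ≤ (2 * ch t ^ 2 - 1) / (ch t * (4 * ch t ^ 2 - 3)) := by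
    rw [div_div, div_le_div_iff₀ (by positivity) (mul_pos hc h2)]
    nlinarith
  calc 2 / Real.pi / ch t = 4 / Real.pi * (1 / 2 / ch t) := by ring
    _ ≤ _ := by gcongr

theorem Th_ge' {a : ℝ} (h0 : 0 ≤ a) (h1 : a ≤ 1) (h2 : a ≠ 1 / 2) (t : ℝ) :
    3 / 2 * Real.sin (ta a) / ch t ≤ Th a t := by
  rw [Th_eq h0 h1 h2]
  exact Tgh_ge h0 h1 (Or.inl h2)

lemma sin_ta_nonneg {a : ℝ} (h0 : 0 ≤ a) (h1 : a ≤ 1) : 0 ≤ Real.sin (ta a) := sin_ag_nonneg h0 h1

/-- **`Th ≥ 0`** -/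
theorem Th_nonneg {a : ℝ} (h0 : 0 ≤ a) (h1 : a ≤ 1) (h2 : a ≠ 1 / 2) (t : ℝ) : 0 ≤ Th a t := by
  refine le_trans ?_ (Th_ge' h0 h1 h2 t)
  have := sin_ta_nonneg h0 h1
  have := ch_pos t
  positivity

/-- **comparison with the density** -/
theorem Th_ge_Ph {a : ℝ} (h0 : 0 ≤ a) (h1 : a ≤ 1) (h2 : a ≠ 1 / 2) (t : ℝ) :
    3 * Real.pi / 8 * Real.sin (ta a) * Ph t ≤ Th a t := by
  refine le_trans ?_ (Th_ge' h0 h1 h2 t)
  have hs := sin_ta_nonneg h0 h1
  have hc := ch_pos t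
  have hpi := Real.pi_pos
  calc 3 * Real.pi / 8 * Real.sin (ta a) * Ph t ≤
        3 * Real.pi / 8 * Real.sin (ta a) * (4 / Real.pi / ch t) :=
        mul_le_mul_of_nonneg_left (Ph_le_inv t) (by positivity)
    _ = _ := by
        field_simp
        ring

theorem Agh_nonneg {a : ℝ} (h0 : 0 ≤ a) (h1 : a < 1 / 2) (t : ℝ) : 0 ≤ Agh a t := by
  have := Th_nonneg h0 (by linarith) h1.ne t
  rwa [NUHM.Th_lt h1] at this

theorem Agh_ge_Ph {a : ℝ} (h0 : 0 ≤ a) (h1 : a < 1 / 2) (t : ℝ) :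
    3 * Real.pi / 8 * Real.sin (ta a) * Ph t ≤ Agh a t := by
  have := Th_ge_Ph h0 (by linarith) h1.ne t
  rwa [NUHM.Th_lt h1] at this

/-- a lower bound with explicit constant -/
theorem Th_ge_a {a : ℝ} (h0 : 0 ≤ a) (h1 : a ≤ 1) (h2 : a ≠ 1 / 2) (t : ℝ) :
    3 / 4 * a * Ph t ≤ Th a t := by
  refine le_trans ?_ (Th_ge_Ph h0 h1 h2 t)
  refine mul_le_mul_of_nonneg_right ?_ (NUHM.Ph_pos t).le
  have hpi := Real.pi_pos
  have hpi3 := Real.pi_gt_three
  have h3 : 2 / Real.pi * ta a ≤ Real.sin (ta a) := by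
    refine Real.mul_le_sin (by rw [ta_eq]; positivity) ?_
    rw [ta_eq]
    nlinarith
  have h4 : 2 / Real.pi * ta a = 2 * a / 3 := by
    rw [ta_eq]
    field_simp
  rw [h4] at h3
  calc 3 / 4 * a ≤ Real.pi / 4 * a := by gcongr
    _ = 3 * Real.pi / 8 * (2 * a / 3) := by ring
    _ ≤ _ := by gcongr

theorem Agh_ge_a {a : ℝ} (h0 : 0 ≤ a) (h1 : a < 1 / 2) (t : ℝ) : 3 / 4 * a * Ph t ≤ Agh a t := by
  have := Th_ge_a h0 (by linarith) h1.ne t
  rwa [NUHM.Th_lt h1] at this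

/-! ### monotonicity -/

/-- **`Agh` is increasing in the offset** -/
theorem Agh_mono {a a' : ℝ} (h0 : -(1 / 2) < a) (h : a ≤ a') (h1 : a' < 1 / 2) (t : ℝ) :
    Agh a t ≤ Agh a' t := by
  have hpi := Real.pi_pos
  have hc := one_le_ch t
  rw [Agh_eq (by rw [abs_lt]; constructor <;> linarith), Agh_eq (by rw [abs_lt]; constructor <;> linarith)]
  have key : ∀ b : ℝ, |b| ≤ Real.pi / 3 →
      Ath (Real.sin (ta a + b)) (ch t) ≤ Ath (Real.sin (ta a' + b)) (ch t) := by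
    intro b hb
    obtain ⟨b1, b2⟩ := abs_le.1 hb
    have r1 : -(Real.pi / 2) < ta a + b := by rw [ta_eq]; nlinarith
    have r2 : ta a + b ≤ ta a' + b := by rw [ta_eq, ta_eq]; nlinarith
    have r3 : ta a' + b < Real.pi / 2 := by rw [ta_eq]; nlinarith
    have q1 := abs_lt.1 (sin_abs_lt (x := ta a + b) (by rw [abs_lt]; constructor <;> linarith))
    have q2 := abs_lt.1 (sin_abs_lt (x := ta a' + b) (by rw [abs_lt]; constructor <;> linarith))
    refine Ath_mono (by linarith [q1.1]) ?_ (by linarith [q2.2])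
    exact Real.sin_le_sin_of_le_of_le_pi_div_two (by linarith) (by linarith) r2
  have k1 := key (Real.pi / 3) (by rw [abs_of_pos (by positivity)])
  have k2 := key 0 (by rw [abs_zero]; positivity)
  have k3 := key (-(Real.pi / 3)) (by rw [abs_neg, abs_of_pos (by positivity)])
  rw [add_zero, add_zero] at k2
  unfold Tgh
  rw [sub_eq_add_neg, sub_eq_add_neg]
  linarith

/-! ### Lipschitz bound and decay -/

/-- **Lipschitz bound of `Agh`** -/
theorem Agh_lip {b : ℝ} (hb : b < l) {a a' : ℝ} (ha : (|a| + 1 / 2) * l ≤ b)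
    (ha' : (|a'| + 1 / 2) * l ≤ b) (t t' : ℝ) :
    |Agh a' t' - Agh a t| ≤ 2 * Real.pi * (Kb b * Real.exp (8 / 3 * |t' - t|) * Real.exp (-(8 / 3) * |t|)) *
      (|t' - t| + |a' - a| * l) := by
  have hl := l_pos
  have hh : ∀ c σ : ℝ, |σ| ≤ 1 / 2 → (|c| + 1 / 2) * l ≤ b → |(c + σ) * l| ≤ b := by
    intro c σ hσ hc
    rw [abs_mul, abs_of_pos hl]
    refine le_trans (mul_le_mul_of_nonneg_right ?_ hl.le) hc
    exact (abs_add_le _ _).trans (by linarith)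
  have p1 : |(1 / 2 : ℝ)| ≤ 1 / 2 := by rw [abs_of_pos (by norm_num)]
  have p2 : |(-(1 / 2) : ℝ)| ≤ 1 / 2 := by rw [abs_neg, abs_of_pos (by norm_num)]
  have k1 := Ag_lip hb (hh a (1 / 2) p1 ha) (hh a' (1 / 2) p1 ha') t t'
  have k2 := Ag_lip hb (hh a (-(1 / 2)) p2 ha) (hh a' (-(1 / 2)) p2 ha') t t'
  rw [add_sub_add_right_eq_sub] at k1 k2
  have e : Agh a' t' - Agh a t = ((Ag (a' + 1 / 2) t' - Ag (a + 1 / 2) t) +
      (Ag (a' + -(1 / 2)) t' - Ag (a + -(1 / 2)) t)) / 2 := by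
    unfold NUHM.Agh
    rw [sub_eq_add_neg a', sub_eq_add_neg a]
    ring
  rw [e, abs_div, abs_of_pos (by norm_num : (0:ℝ) < 2)]
  have k3 := abs_add_le (Ag (a' + 1 / 2) t' - Ag (a + 1 / 2) t)
    (Ag (a' + -(1 / 2)) t' - Ag (a + -(1 / 2)) t)
  linarith

/-- **decay of `Agh`** -/
theorem Agh_le {b : ℝ} (hb : b < l) {a : ℝ} (ha : (|a| + 1 / 2) * l ≤ b) (t : ℝ) :
    |Agh a t| ≤ 2 * Real.pi * Kb b * (|a| * l) * Real.exp (-(8 / 3) * |t|) := by
  have hl := l_pos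
  have h1 := Agh_lip hb (a := 0) (a' := a) (by
    rw [abs_zero, zero_add]
    have := mul_nonneg (abs_nonneg a) hl.le
    linarith) ha t t
  rw [NUHM.Agh_zero, sub_zero, sub_self, abs_zero, mul_zero, Real.exp_zero, mul_one, zero_add,
    sub_zero] at h1
  refine h1.trans (le_of_eq ?_)
  ring

/-- the Lipschitz bound for nearby points, one constant -/
theorem Agh_lip' {e1 : ℝ} (he : e1 < 1 / 2) : ∃ K : ℝ, 0 < K ∧ ∀ a a' t t' : ℝ, |a| ≤ e1 → |a'| ≤ e1 →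
    |t' - t| ≤ 1 → |Agh a' t' - Agh a t| ≤ K * (|t' - t| + |a' - a|) * Real.exp (-(8 / 3) * |t|) := by
  have hl := l_pos
  rcases lt_or_ge e1 0 with hneg | he0
  · refine ⟨1, one_pos, fun a a' t t' ha _ _ => ?_⟩
    have := abs_nonneg a
    linarith
  set b := (e1 + 1 / 2) * l with hb
  have hb1 : b < l := by rw [hb]; nlinarith
  have hb0 : 0 ≤ b := by rw [hb]; positivity
  have hK := Kb_pos hb0 hb1
  have hpi := Real.pi_pos
  have hl1 : l ≤ 1 := by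
    unfold l
    linarith [Real.pi_lt_four]
  refine ⟨2 * Real.pi * (Kb b * Real.exp (8 / 3)), by positivity, fun a a' t t' ha ha' ht => ?_⟩
  refine (Agh_lip hb1 (a := a) (a' := a') (by rw [hb]; gcongr) (by rw [hb]; gcongr) t t').trans ?_
  calc 2 * Real.pi * (Kb b * Real.exp (8 / 3 * |t' - t|) * Real.exp (-(8 / 3) * |t|)) *
        (|t' - t| + |a' - a| * l) ≤
      2 * Real.pi * (Kb b * Real.exp (8 / 3) * Real.exp (-(8 / 3) * |t|)) *
        (|t' - t| + |a' - a|) := by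
        have h1 : Real.exp (8 / 3 * |t' - t|) ≤ Real.exp (8 / 3) := Real.exp_le_exp.2 (by linarith)
        have h2 : |a' - a| * l ≤ |a' - a| := mul_le_of_le_one_right (abs_nonneg _) hl1
        gcongr
    _ = _ := by ring

/-! ### cutoff characters -/

/-- **`exp (- 2 Agh a t)` is a quotient of two cutoff characters** -/
theorem exp_Agh {a : ℝ} (ha : |a| < 1 / 2) (t : ℝ) : Real.exp (-(2 * Agh a t)) =
    ‖NUP1.psi (4 / 3) (-(((3 / 2 - a) * l : ℝ) : ℂ) + t * I)‖ /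
      ‖NUP1.psi (4 / 3) (-(((3 / 2 + a) * l : ℝ) : ℂ) + t * I)‖ := by
  obtain ⟨a1, a2⟩ := abs_lt.1 ha
  have h1 := psi_norm (a := a + 1 / 2) (by rw [abs_lt]; constructor <;> linarith) t
  have h2 := psi_norm (a := 1 / 2 - a) (by rw [abs_lt]; constructor <;> linarith) t
  rw [show 2 - (a + 1 / 2) = 3 / 2 - a by ring] at h1
  rw [show 2 - (1 / 2 - a) = 3 / 2 + a by ring] at h2
  have h3 := NUHM.Ag_neg (a - 1 / 2) t (by rw [abs_lt]; constructor <;> linarith)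
  rw [show -(a - 1 / 2) = 1 / 2 - a by ring] at h3
  rw [h1, h2, ← Real.exp_sub]
  congr 1
  unfold NUHM.Agh
  rw [h3]
  ring

end

end NUMFH
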