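import Pool.Agent.NUMFC.Pre
import Pool.Agent.NUMFH.Dens

/-!
# The prefactor of the exact formula for two clusters of rows at `± l / 2`

* `norm_F`: `‖F(E x, E y)‖ = 16 |s(d + 2 l) s(d + 3 l) s(d + 5 l) s(d + 6 l)|`, `d = x - y`;
* `norm_F_zero`, `norm_F_l`, `norm_F_neg_l`: the values `4 + 2 √2`, `4`, `4`;
* `norm_Apre_AB`: rows `± l / 2`, `A` of one sign and `B` of the other;
* `norm_Apre_h`, `pre_h_MF`: `M` of each sign, and the match with `bulk_h`.
-/

set_option autoImplicit false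

noncomputable section

open Complex

namespace NUMFH

open NUP1 NUP1.Mu
open NUP1.Grand (P)

lemma norm_lin (k : ℕ) (x y : ℝ) : ‖NUGas.lin et k (E x) (E y)‖ =
    2 * |Real.sin (x - y + k * NUP1.l)| := by
  have h : NUGas.lin et k (E x) (E y) = Complex.exp (((x + k * NUP1.l + y : ℝ) : ℂ) * I) *
      (2 * I * ((Real.sin (x - y + k * NUP1.l) : ℝ) : ℂ)) := by
    have h2 : (2 * I * ((Real.sin (x - y + k * NUP1.l) : ℝ) : ℂ)) =
        Complex.exp (((x - y + k * NUP1.l : ℝ) : ℂ) * I) -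
          Complex.exp (-(((x - y + k * NUP1.l : ℝ) : ℂ) * I)) := by
      rw [Complex.ofReal_sin]
      have := Complex.two_sin ((x - y + k * NUP1.l : ℝ) : ℂ)
      have hI := Complex.I_mul_I
      rw [show 2 * I * Complex.sin ((x - y + k * NUP1.l : ℝ) : ℂ) =
        I * (2 * Complex.sin ((x - y + k * NUP1.l : ℝ) : ℂ)) by ring, this, neg_mul]
      linear_combination (Complex.exp (-(((x - y + k * NUP1.l : ℝ) : ℂ) * I)) -
        Complex.exp (((x - y + k * NUP1.l : ℝ) : ℂ) * I)) * hI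
    rw [h2, mul_sub, ← Complex.exp_add, ← Complex.exp_add]
    unfold NUGas.lin et E
    rw [← Complex.exp_nat_mul, ← Complex.exp_add]
    congr 2
    · push_cast; ring
    · push_cast; ring
  rw [h, norm_mul, Complex.norm_exp_ofReal_mul_I, one_mul, norm_mul, norm_mul, Complex.norm_I,
    Complex.norm_real, Real.norm_eq_abs, mul_one]
  norm_num

/-- modulus of the pair function of the rows -/
def nF (d : ℝ) : ℝ := 16 * (|Real.sin (d + 2 * NUP1.l)| * |Real.sin (d + 3 * NUP1.l)| *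
  |Real.sin (d + 5 * NUP1.l)| * |Real.sin (d + 6 * NUP1.l)|)

theorem norm_F (x y : ℝ) : ‖NUGas.F et .pos .pos (E x) (E y)‖ = nF (x - y) := by
  unfold NUGas.F nF
  simp only [norm_mul, norm_lin]
  push_cast
  ring

lemma nF_neg (d : ℝ) : nF (-d) = nF d := by
  have h : ∀ k : ℝ, |Real.sin (-d + k * NUP1.l)| = |Real.sin (d + (8 - k) * NUP1.l)| := by
    intro k
    have : -d + k * NUP1.l = Real.pi - (d + (8 - k) * NUP1.l) := by unfold NUP1.l; ring
    rw [this, Real.sin_pi_sub]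
  unfold nF
  rw [h 2, h 3, h 5, h 6]
  norm_num
  ring

lemma sin_l_vals : Real.sin (2 * NUP1.l) = √2 / 2 ∧ Real.sin (4 * NUP1.l) = 1 ∧
    Real.sin (6 * NUP1.l) = √2 / 2 := by
  refine ⟨?_, ?_, ?_⟩
  · rw [show 2 * NUP1.l = Real.pi / 4 by unfold NUP1.l; ring, Real.sin_pi_div_four]
  · rw [show 4 * NUP1.l = Real.pi / 2 by unfold NUP1.l; ring, Real.sin_pi_div_two]
  · rw [show 6 * NUP1.l = Real.pi - Real.pi / 4 by unfold NUP1.l; ring, Real.sin_pi_sub,
      Real.sin_pi_div_four]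

lemma norm_F_zero : nF 0 = 4 + 2 * √2 := by
  obtain ⟨h2, h4, h6⟩ := sin_l_vals
  have hs : √2 ^ 2 = 2 := Real.sq_sqrt (by norm_num)
  have h0 : 0 < √2 := Real.sqrt_pos.2 (by norm_num)
  have h5 : Real.sin (5 * NUP1.l) = Real.sin (3 * NUP1.l) := by
    rw [show 5 * NUP1.l = Real.pi - 3 * NUP1.l by unfold NUP1.l; ring, Real.sin_pi_sub]
  have h3 : Real.sin (3 * NUP1.l) ^ 2 = (1 + √2 / 2) / 2 := by
    have h7 := Real.cos_two_mul (3 * NUP1.l)
    have h8 : Real.cos (2 * (3 * NUP1.l)) = -(√2 / 2) := by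
      rw [show 2 * (3 * NUP1.l) = Real.pi - Real.pi / 4 by unfold NUP1.l; ring, Real.cos_pi_sub,
        Real.cos_pi_div_four]
    have h9 := Real.sin_sq_add_cos_sq (3 * NUP1.l)
    rw [h8] at h7
    linarith
  unfold nF
  simp only [zero_add]
  rw [h2, h5, h6, abs_of_pos (by positivity : 0 < √2 / 2)]
  have h10 : |Real.sin (3 * NUP1.l)| * |Real.sin (3 * NUP1.l)| = (1 + √2 / 2) / 2 := by
    rw [abs_mul_abs_self, ← sq, h3]
  have : 16 * (√2 / 2 * |Real.sin (3 * NUP1.l)| * |Real.sin (3 * NUP1.l)| * (√2 / 2)) =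
      4 * √2 ^ 2 * (|Real.sin (3 * NUP1.l)| * |Real.sin (3 * NUP1.l)|) := by ring
  rw [this, h10, hs]
  ring

lemma norm_F_l : nF NUP1.l = 4 := by
  obtain ⟨h2, h4, h6⟩ := sin_l_vals
  have hs : √2 ^ 2 = 2 := Real.sq_sqrt (by norm_num)
  have h0 : 0 < √2 := Real.sqrt_pos.2 (by norm_num)
  have hpi := Real.pi_pos
  have h7 : Real.sin (7 * NUP1.l) = Real.sin NUP1.l := by
    rw [show 7 * NUP1.l = Real.pi - NUP1.l by unfold NUP1.l; ring, Real.sin_pi_sub]
  have p1 : 0 < Real.sin NUP1.l := Real.sin_pos_of_pos_of_lt_pi (by unfold NUP1.l; positivity)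
    (by unfold NUP1.l; linarith)
  have p3 : 0 < Real.sin (3 * NUP1.l) := Real.sin_pos_of_pos_of_lt_pi (by unfold NUP1.l; positivity)
    (by unfold NUP1.l; linarith)
  have h13 : Real.sin NUP1.l * Real.sin (3 * NUP1.l) = √2 / 4 := by
    have h8 := Real.cos_sub_cos (4 * NUP1.l) (2 * NUP1.l)
    have h9 : Real.cos (4 * NUP1.l) = 0 := by
      rw [show 4 * NUP1.l = Real.pi / 2 by unfold NUP1.l; ring, Real.cos_pi_div_two]
    have h10 : Real.cos (2 * NUP1.l) = √2 / 2 := by
      rw [show 2 * NUP1.l = Real.pi / 4 by unfold NUP1.l; ring, Real.cos_pi_div_four]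
    rw [h9, h10, show (4 * NUP1.l + 2 * NUP1.l) / 2 = 3 * NUP1.l by ring,
      show (4 * NUP1.l - 2 * NUP1.l) / 2 = NUP1.l by ring] at h8
    linarith
  unfold nF
  rw [show NUP1.l + 2 * NUP1.l = 3 * NUP1.l by ring, show NUP1.l + 3 * NUP1.l = 4 * NUP1.l by ring,
    show NUP1.l + 5 * NUP1.l = 6 * NUP1.l by ring, show NUP1.l + 6 * NUP1.l = 7 * NUP1.l by ring,
    h4, h6, h7, abs_one, abs_of_pos (by positivity : 0 < √2 / 2), abs_of_pos p1, abs_of_pos p3]
  have : 16 * (Real.sin (3 * NUP1.l) * 1 * (√2 / 2) * Real.sin NUP1.l) =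
      8 * √2 * (Real.sin NUP1.l * Real.sin (3 * NUP1.l)) := by ring
  rw [this, h13]
  nlinarith

/-- rows at `± l / 2` -/
def rw2 {m : ℕ} (s : Fin m → Bool) (i : Fin m) : ℂ :=
  ((if s i then NUP1.l / 2 else -(NUP1.l / 2) : ℝ) : ℂ)

lemma norm_F_rw2 {m : ℕ} (s : Fin m → Bool) (i j : Fin m) :
    ‖NUGas.F et .pos .pos (E (rw2 s i)) (E (rw2 s j))‖ =
      if s i = s j then 4 + 2 * √2 else 4 := by
  unfold rw2
  rw [norm_F]
  cases s i <;> cases s j
  · simp [norm_F_zero]
  · have : -(NUP1.l / 2) - NUP1.l / 2 = -NUP1.l := by ring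
    simp [this, nF_neg, norm_F_l]
  · have : NUP1.l / 2 - -(NUP1.l / 2) = NUP1.l := by ring
    simp only [if_true, Bool.false_eq_true, if_false, this, norm_F_l]
    simp
  · simp [norm_F_zero]

lemma norm_E (x : ℝ) : ‖E x‖ = 1 := by
  unfold E
  rw [show 2 * I * (x : ℂ) = ((2 * x : ℝ) : ℂ) * I by push_cast; ring,
    Complex.norm_exp_ofReal_mul_I]

theorem norm_P_sq {m : ℕ} (f : Fin m → Fin m → ℂ) (hf : ∀ a b, ‖f a b‖ = ‖f b a‖) :
    ‖P f * P f‖ = ∏ a : Fin m, ∏ b : Fin m, if a = b then 1 else ‖f a b‖ := by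
  have h0 : ‖P f‖ = ∏ a : Fin m, ∏ b : Fin m, if a < b then ‖f a b‖ else 1 := by
    unfold P
    rw [norm_prod]
    refine Finset.prod_congr rfl fun a _ => ?_
    rw [norm_prod]
    refine Finset.prod_congr rfl fun b _ => ?_
    split_ifs <;> simp
  have h1 : ‖P f‖ = ∏ a : Fin m, ∏ b : Fin m, if b < a then ‖f a b‖ else 1 := by
    rw [h0, Finset.prod_comm]
    refine Finset.prod_congr rfl fun a _ => Finset.prod_congr rfl fun b _ => ?_
    rw [hf]
  rw [norm_mul]
  conv_lhs => rw [h1]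
  rw [← h1]
  conv_lhs => lhs; rw [h1]
  rw [h0, ← Finset.prod_mul_distrib]
  refine Finset.prod_congr rfl fun a _ => ?_
  rw [← Finset.prod_mul_distrib]
  refine Finset.prod_congr rfl fun b _ => ?_
  rcases lt_trichotomy a b with h | h | h
  · simp [h, h.ne, h.not_gt]
  · simp [h]
  · simp [h, h.ne', h.not_gt]

/-- **the prefactor for rows `± l / 2`**, `A` rows at `l / 2`, `B` rows at `- l / 2` -/
theorem norm_Apre_AB {σ : ℂ} (hσ : σ ^ 2 = 4 * sin NUP1.l ^ 2) {m A B : ℕ} (s : Fin m → Bool)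
    (hA : (Finset.univ.filter fun i => s i = true).card = A)
    (hB : (Finset.univ.filter fun i => s i = false).card = B) :
    ‖Apre σ (rw2 s) * Apre σ (rw2 s)‖ =
      (2 - √2) ^ (A + B) * (4 + 2 * √2) ^ (A * (A - 1) + B * (B - 1)) * 4 ^ (2 * (A * B)) := by
  have hm : A + B = m := by
    rw [← hA, ← hB]
    have h1 := Finset.card_filter_add_card_filter_not (s := (Finset.univ : Finset (Fin m)))
      (fun i => s i = true)
    simp only [Bool.not_eq_true, Finset.card_univ, Fintype.card_fin] at h1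
    exact h1
  have h1 : ‖Apre σ (rw2 s) * Apre σ (rw2 s)‖ = (‖σ‖ ^ 2) ^ m *
      ‖P (fun i j => NUGas.F et .pos .pos (E (rw2 s i)) (E (rw2 s j))) *
        P (fun i j => NUGas.F et .pos .pos (E (rw2 s i)) (E (rw2 s j)))‖ := by
    unfold Apre
    simp only [norm_mul, norm_prod]
    have hE : ∀ i, ‖E (rw2 s i)‖ = 1 := fun i => norm_E _
    simp only [hE, mul_one, Finset.prod_const, Finset.card_univ, Fintype.card_fin]
    ring
  rw [h1, NUMFC.norm_sigma hσ, norm_P_sq _ (fun a b => by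
    rw [norm_F_rw2, norm_F_rw2]; simp only [eq_comm])]
  simp only [norm_F_rw2]
  set c1 : ℝ := 4 + 2 * √2 with hc1
  have hrow : ∀ a : Fin m, (∏ b : Fin m, if a = b then (1 : ℝ) else if s a = s b then c1 else 4) =
      if s a then c1 ^ (A - 1) * 4 ^ B else c1 ^ (B - 1) * 4 ^ A := by
    intro a
    have e1 : ∀ b : Fin m, (if a = b then (1 : ℝ) else if s a = s b then c1 else 4) =
        (if s b = s a ∧ a ≠ b then c1 else 1) * (if s b = s a then 1 else 4) := by
      intro b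
      by_cases hab : a = b
      · simp [hab]
      · by_cases hs : s b = s a
        · simp [hab, hs]
        · have hs' : ¬ s a = s b := fun h => hs h.symm
          simp [hab, hs, hs']
    rw [Finset.prod_congr rfl fun b _ => e1 b, Finset.prod_mul_distrib, Finset.prod_ite,
      Finset.prod_ite, Finset.prod_const_one, Finset.prod_const_one, Finset.prod_const,
      Finset.prod_const, mul_one, one_mul]
    have e2 : (Finset.univ.filter fun b : Fin m => s b = s a ∧ a ≠ b) =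
        (Finset.univ.filter fun b : Fin m => s b = s a).erase a := by
      ext b
      simp only [Finset.mem_filter, Finset.mem_univ, true_and, Finset.mem_erase]
      constructor
      · rintro ⟨h, h'⟩; exact ⟨h'.symm, h⟩
      · rintro ⟨h, h'⟩; exact ⟨h', h.symm⟩
    rw [e2, Finset.card_erase_of_mem (by simp)]
    cases ha : s a
    · have e3 : (Finset.univ.filter fun b : Fin m => ¬ s b = false) =
          Finset.univ.filter fun b : Fin m => s b = true := by
        ext b; simp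
      rw [hB, e3, hA]
      simp
    · have e3 : (Finset.univ.filter fun b : Fin m => ¬ s b = true) =
          Finset.univ.filter fun b : Fin m => s b = false := by
        ext b; simp
      rw [hA, e3, hB]
      simp
  rw [Finset.prod_congr rfl fun a _ => hrow a, Finset.prod_ite, Finset.prod_const, Finset.prod_const]
  have e4 : (Finset.univ.filter fun b : Fin m => ¬ s b = true) =
      Finset.univ.filter fun b : Fin m => s b = false := by
    ext b; simp
  rw [hA, e4, hB, mul_pow, mul_pow, ← hm]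
  rw [← pow_mul, ← pow_mul, ← pow_mul, ← pow_mul, pow_add c1 (A * (A - 1)),
    show 2 * (A * B) = B * A + A * B by ring, pow_add (4 : ℝ), mul_comm (A - 1) A,
    mul_comm (B - 1) B]
  ring

/-- **the prefactor of two clusters**, `M` rows each -/
theorem norm_Apre_h {σ : ℂ} (hσ : σ ^ 2 = 4 * sin NUP1.l ^ 2) {m M : ℕ} (s : Fin m → Bool)
    (hA : (Finset.univ.filter fun i => s i = true).card = M)
    (hB : (Finset.univ.filter fun i => s i = false).card = M) :
    ‖Apre σ (rw2 s) * Apre σ (rw2 s)‖ =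
      (2 - √2) ^ (2 * M) * (4 + 2 * √2) ^ (2 * (M * (M - 1))) * 16 ^ (M ^ 2) := by
  rw [norm_Apre_AB hσ s hA hB, show M + M = 2 * M by ring,
    show M * (M - 1) + M * (M - 1) = 2 * (M * (M - 1)) by ring, pow_mul (4 : ℝ) 2 (M * M),
    show (4 : ℝ) ^ 2 = 16 by norm_num, show M * M = M ^ 2 by ring]

/-- **prefactor × mean field = bulk factor** of two clusters -/
theorem pre_h_MF {σ : ℂ} (hσ : σ ^ 2 = 4 * sin NUP1.l ^ 2) {m M : ℕ} (s : Fin m → Bool)
    (hA : (Finset.univ.filter fun i => s i = true).card = M)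
    (hB : (Finset.univ.filter fun i => s i = false).card = M) :
    ‖Apre σ (rw2 s) * Apre σ (rw2 s)‖ * Real.exp ((2 * (M : ℝ)) ^ 2 * ∫ t, Pd t * vd t) =
    (2 / 3 * (2 + √2)) ^ (4 * M * (2 * M - 1)) * (8 / 3 * (1 + NUMF.r)) ^ (4 * M ^ 2) *
      (2 / 3) ^ (4 * M) := by
  rw [norm_Apre_h hσ s hA hB, bulk_h_match]

end NUMFH

end
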