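import Pool.Agent.NUP.MF.Weights

/-!
# Closed form of the mean field weights

`Ath x C = artanh (x / C)`, `C = ch t = cosh (8 t / 3)`, `θ = 8 a l / 3 = π a / 3`:
`Ag a t = Ath (sin (θ + π / 6)) C + Ath (sin (θ - π / 6)) C` for `|a| < 1`.
-/

set_option autoImplicit false

open MeasureTheory Set Filter Topology Complex

namespace NUMFH

open NUMF

noncomputable section

/-- `artanh (x / C)` -/
def Ath (x C : ℝ) : ℝ := (Real.log (C + x) - Real.log (C - x)) / 2

lemma Ath_neg (x C : ℝ) : Ath (-x) C = -Ath x C := by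
  unfold Ath
  rw [sub_neg_eq_add, ← sub_eq_add_neg]
  ring

lemma Ath_zero (C : ℝ) : Ath 0 C = 0 := by
  unfold Ath
  rw [add_zero, sub_zero]
  ring

lemma Ath_mono {x y C : ℝ} (hx : -C < x) (hxy : x ≤ y) (hy : y < C) : Ath x C ≤ Ath y C := by
  unfold Ath
  have h1 : Real.log (C + x) ≤ Real.log (C + y) := Real.log_le_log (by linarith) (by linarith)
  have h2 : Real.log (C - y) ≤ Real.log (C - x) := Real.log_le_log (by linarith) (by linarith)
  linarith

lemma Ath_nonneg {x C : ℝ} (hx : 0 ≤ x) (hC : x < C) : 0 ≤ Ath x C := by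
  have := Ath_mono (x := 0) (y := x) (C := C) (by linarith) hx hC
  rwa [Ath_zero] at this

/-- `artanh y - artanh x ≥ y - x` for `0 ≤ x ≤ y` -/
lemma Ath_sub_ge {x y C : ℝ} (hx : 0 ≤ x) (hxy : x ≤ y) (hy : y < C) :
    (y - x) / C ≤ Ath y C - Ath x C := by
  have hC : 0 < C := by linarith
  have hD : 0 < C ^ 2 - x * y := by nlinarith
  set z := (y - x) * C / (C ^ 2 - x * y) with hz
  have hz0 : 0 ≤ z := div_nonneg (mul_nonneg (by linarith) hC.le) hD.le
  have e1 : 1 + z = (C + y) * (C - x) / (C ^ 2 - x * y) := by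
    rw [hz, eq_div_iff hD.ne', add_mul, div_mul_cancel₀ _ hD.ne']
    ring
  have e2 : 1 - z = (C - y) * (C + x) / (C ^ 2 - x * y) := by
    rw [hz, eq_div_iff hD.ne', sub_mul, div_mul_cancel₀ _ hD.ne']
    ring
  have p1 : 0 < C + y := by linarith
  have p2 : 0 < C - x := by linarith
  have p3 : 0 < C - y := by linarith
  have p4 : 0 < C + x := by linarith
  have hz1 : z < 1 := by
    have : 0 < 1 - z := by rw [e2]; positivity
    linarith
  have h1 := artanh_ge hz0 hz1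
  rw [e1, e2, Real.log_div (by positivity) hD.ne', Real.log_div (by positivity) hD.ne',
    Real.log_mul p1.ne' p2.ne', Real.log_mul p3.ne' p4.ne'] at h1
  have h2 : (y - x) / C ≤ z := by
    rw [hz, div_le_div_iff₀ hC hD]
    have : 0 ≤ (y - x) * (x * y) := mul_nonneg (by linarith) (mul_nonneg hx (by linarith))
    nlinarith
  have h3 : 0 ≤ z ^ 3 / 3 := by positivity
  unfold Ath
  linarith

lemma Ath_ge {x C : ℝ} (hx : 0 ≤ x) (hC : x < C) : x / C ≤ Ath x C := by
  have := Ath_sub_ge (x := 0) (y := x) (C := C) le_rfl hx hC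
  rwa [Ath_zero, sub_zero, sub_zero] at this

/-- upper bound `artanh x ≤ x / (1 - x ^ 2)` -/
lemma Ath_le {x C : ℝ} (hx : 0 ≤ x) (hC : x < C) : Ath x C ≤ x * C / (C ^ 2 - x ^ 2) := by
  have hC0 : 0 < C := by linarith
  have p1 : 0 < C - x := by linarith
  have p2 : 0 < C + x := by linarith
  have h1 : Real.log ((C + x) / (C - x)) ≤ 2 * (x * C / (C ^ 2 - x ^ 2)) := by
    -- log u ≤ (u - 1 / u) / 2 for u ≥ 1
    set u := (C + x) / (C - x) with hu
    have hu1 : 1 ≤ u := by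
      rw [hu, le_div_iff₀ p1]
      linarith
    have hlog : Real.log u ≤ (u - u⁻¹) / 2 := by
      have h2 := Real.self_le_sinh_iff.2 (Real.log_nonneg hu1)
      rw [Real.sinh_log (by linarith)] at h2
      exact h2
    refine hlog.trans (le_of_eq ?_)
    rw [hu, inv_div, show C ^ 2 - x ^ 2 = (C + x) * (C - x) by ring]
    field_simp
    ring
  rw [Real.log_div p2.ne' p1.ne'] at h1
  unfold Ath
  linarith

/-- angle of an offset -/
def ta (a : ℝ) : ℝ := 8 / 3 * (a * l)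

lemma ta_eq (a : ℝ) : ta a = Real.pi * a / 3 := by
  unfold ta l
  ring

lemma ta_add (a b : ℝ) : ta (a + b) = ta a + ta b := by
  unfold ta; ring

lemma ta_half : ta (1 / 2) = Real.pi / 6 := by
  rw [ta_eq]; ring

/-- the closed form of `Ag` -/
def Tg (a t : ℝ) : ℝ := Ath (Real.sin (ta a + Real.pi / 6)) (ch t) +
  Ath (Real.sin (ta a - Real.pi / 6)) (ch t)

lemma sin_pm (θ : ℝ) : Real.sin (θ + Real.pi / 6) + Real.sin (θ - Real.pi / 6) = √3 * Real.sin θ ∧
    Real.sin (θ + Real.pi / 6) * Real.sin (θ - Real.pi / 6) =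
      3 / 4 * Real.sin θ ^ 2 - 1 / 4 * Real.cos θ ^ 2 := by
  have h3 := sq3
  rw [Real.sin_add, Real.sin_sub, Real.cos_pi_div_six, Real.sin_pi_div_six]
  constructor
  · ring
  · linear_combination (Real.sin θ ^ 2 / 4) * h3

lemma Dg_sub (a t : ℝ) : Dg a t - Eg a t = 4 / 3 * ((ch t - Real.sin (ta a + Real.pi / 6)) *
    (ch t - Real.sin (ta a - Real.pi / 6))) := by
  obtain ⟨h1, h2⟩ := sin_pm (ta a)
  have h3 := Real.sin_sq_add_cos_sq (ta a)
  have h4 : 4 / √3 = 4 / 3 * √3 := by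
    rw [div_eq_iff sq3_pos.ne']
    linear_combination (-4 / 3) * sq3
  have e : (ch t - Real.sin (ta a + Real.pi / 6)) * (ch t - Real.sin (ta a - Real.pi / 6)) =
      ch t ^ 2 - ch t * (Real.sin (ta a + Real.pi / 6) + Real.sin (ta a - Real.pi / 6)) +
        Real.sin (ta a + Real.pi / 6) * Real.sin (ta a - Real.pi / 6) := by ring
  rw [e, h1, h2]
  unfold Dg Eg
  rw [h4]
  change 1 + 4 / 3 * (ch t ^ 2 - Real.cos (ta a) ^ 2) - 4 / 3 * √3 * ch t * Real.sin (ta a) = _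
  linear_combination (-1) * h3

lemma Dg_add (a t : ℝ) : Dg a t + Eg a t = 4 / 3 * ((ch t + Real.sin (ta a + Real.pi / 6)) *
    (ch t + Real.sin (ta a - Real.pi / 6))) := by
  obtain ⟨h1, h2⟩ := sin_pm (ta a)
  have h3 := Real.sin_sq_add_cos_sq (ta a)
  have h4 : 4 / √3 = 4 / 3 * √3 := by
    rw [div_eq_iff sq3_pos.ne']
    linear_combination (-4 / 3) * sq3
  have e : (ch t + Real.sin (ta a + Real.pi / 6)) * (ch t + Real.sin (ta a - Real.pi / 6)) =
      ch t ^ 2 + ch t * (Real.sin (ta a + Real.pi / 6) + Real.sin (ta a - Real.pi / 6)) +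
        Real.sin (ta a + Real.pi / 6) * Real.sin (ta a - Real.pi / 6) := by ring
  rw [e, h1, h2]
  unfold Dg Eg
  rw [h4]
  change 1 + 4 / 3 * (ch t ^ 2 - Real.cos (ta a) ^ 2) + 4 / 3 * √3 * ch t * Real.sin (ta a) = _
  linear_combination (-1) * h3

/-- the logarithm of the closed form -/
lemma half_log_Dg {a t : ℝ} (h1 : |Real.sin (ta a + Real.pi / 6)| < ch t)
    (h2 : |Real.sin (ta a - Real.pi / 6)| < ch t) :
    (Real.log (Dg a t + Eg a t) - Real.log (Dg a t - Eg a t)) / 2 = Tg a t := by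
  obtain ⟨a1, a2⟩ := abs_lt.1 h1
  obtain ⟨b1, b2⟩ := abs_lt.1 h2
  have p1 : 0 < ch t + Real.sin (ta a + Real.pi / 6) := by linarith
  have p2 : 0 < ch t + Real.sin (ta a - Real.pi / 6) := by linarith
  have p3 : 0 < ch t - Real.sin (ta a + Real.pi / 6) := by linarith
  have p4 : 0 < ch t - Real.sin (ta a - Real.pi / 6) := by linarith
  rw [Dg_sub, Dg_add, Real.log_mul (by norm_num) (mul_pos p1 p2).ne',
    Real.log_mul (by norm_num) (mul_pos p3 p4).ne',
    Real.log_mul p1.ne' p2.ne', Real.log_mul p3.ne' p4.ne']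
  unfold Tg Ath
  ring

lemma sin_abs_lt {x : ℝ} (h : |x| < Real.pi / 2) : |Real.sin x| < 1 := by
  obtain ⟨h1, h2⟩ := abs_lt.1 h
  rw [abs_lt]
  constructor
  · rw [← Real.sin_pi_div_two, ← Real.sin_neg]
    exact Real.sin_lt_sin_of_lt_of_le_pi_div_two (by linarith [Real.pi_pos]) (by linarith) (by linarith)
  · rw [← Real.sin_pi_div_two]
    exact Real.sin_lt_sin_of_lt_of_le_pi_div_two (by linarith) le_rfl h2

/-- **closed form of `Ag`** -/
theorem Ag_ath {a : ℝ} (ha : |a| < 1) (t : ℝ) : Ag a t = Tg a t := by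
  have hpi := Real.pi_pos
  obtain ⟨a1, a2⟩ := abs_lt.1 ha
  have hc := one_le_ch t
  have q1 : |Real.sin (ta a + Real.pi / 6)| < ch t := by
    refine lt_of_lt_of_le (sin_abs_lt ?_) hc
    rw [ta_eq, abs_lt]
    constructor <;> nlinarith
  have q2 : |Real.sin (ta a - Real.pi / 6)| < ch t := by
    refine lt_of_lt_of_le (sin_abs_lt ?_) hc
    rw [ta_eq, abs_lt]
    constructor <;> nlinarith
  rw [Ag_closed ha, half_log_Dg q1 q2]

lemma one_lt_ch {t : ℝ} (ht : t ≠ 0) : 1 < ch t := by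
  unfold ch
  rw [Real.one_lt_cosh]
  intro h
  apply ht
  linarith

open scoped ComplexConjugate in
/-- **the cutoff character at any offset**, off the origin -/
theorem psi_norm_Tg (a : ℝ) {t : ℝ} (ht : t ≠ 0) :
    ‖NUP1.psi (4 / 3) (-(((2 - a) * l : ℝ) : ℂ) + t * I)‖ = Real.exp (-Tg a t) := by
  have hc := one_lt_ch ht
  have q1 : |Real.sin (ta a + Real.pi / 6)| < ch t := lt_of_le_of_lt (Real.abs_sin_le_one _) hc
  have q2 : |Real.sin (ta a - Real.pi / 6)| < ch t := lt_of_le_of_lt (Real.abs_sin_le_one _) hc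
  obtain ⟨a1, a2⟩ := abs_lt.1 q1
  obtain ⟨b1, b2⟩ := abs_lt.1 q2
  have p1 : 0 < ch t + Real.sin (ta a + Real.pi / 6) := by linarith
  have p2 : 0 < ch t + Real.sin (ta a - Real.pi / 6) := by linarith
  have p3 : 0 < ch t - Real.sin (ta a + Real.pi / 6) := by linarith
  have p4 : 0 < ch t - Real.sin (ta a - Real.pi / 6) := by linarith
  have d1 : 0 < Dg a t - Eg a t := by rw [Dg_sub]; positivity
  have d2 : 0 < Dg a t + Eg a t := by rw [Dg_add]; positivity
  set z : ℂ := (t : ℂ) + (a * l : ℝ) * I with hz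
  have e1 := norm_one_pm a t (σ := 1) (by norm_num)
  have e2 := norm_one_pm a t (σ := -1) (by norm_num)
  have f1 : (1 : ℂ) + ((1 : ℝ) : ℂ) * I * wz (t + (a * l : ℝ) * I) = 1 + I * wz (t + (a * l : ℝ) * I) := by
    push_cast; ring
  have f2 : (1 : ℂ) + ((-1 : ℝ) : ℂ) * I * wz (t + (a * l : ℝ) * I) = 1 - I * wz (t + (a * l : ℝ) * I) := by
    push_cast; ring
  rw [f1, ← hz] at e1
  rw [f2, ← hz] at e2
  have g1 : ‖1 + I * wz z‖ ^ 2 = Dg a t - Eg a t := by
    rw [e1]; unfold Dg Eg; ring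
  have g2 : ‖1 - I * wz z‖ ^ 2 = Dg a t + Eg a t := by
    rw [e2]; unfold Dg Eg; ring
  have m1 : 0 < ‖1 + I * wz z‖ := by
    rcases (norm_nonneg (1 + I * wz z)).eq_or_lt with h | h
    · rw [← h] at g1; norm_num at g1; linarith
    · exact h
  have m2 : 0 < ‖1 - I * wz z‖ := by
    rcases (norm_nonneg (1 - I * wz z)).eq_or_lt with h | h
    · rw [← h] at g2; norm_num at g2; linarith
    · exact h
  have hT : Real.exp (-Tg a t) = ‖1 + I * wz z‖ / ‖1 - I * wz z‖ := by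
    rw [← half_log_Dg q1 q2, ← g1, ← g2, Real.log_pow, Real.log_pow]
    rw [show -((((2 : ℕ) : ℝ) * Real.log ‖1 - I * wz z‖ - ((2 : ℕ) : ℝ) * Real.log ‖1 + I * wz z‖) / 2) =
      Real.log ‖1 + I * wz z‖ - Real.log ‖1 - I * wz z‖ by push_cast; ring,
      Real.exp_sub, Real.exp_log m1, Real.exp_log m2]
  rw [hT]
  set c : ℂ := ((√3 / 2 : ℝ) : ℂ) with hc'
  have hc0 : c ≠ 0 := by
    rw [hc', Complex.ofReal_ne_zero]
    have := sq3_pos
    positivity
  have hl1 : (NUP1.l : ℝ) = l := rfl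
  have e1 : Complex.cos (((4 / 3 : ℝ) : ℂ) * (NUP1.l : ℂ)) = c := by
    rw [hl1, ← Complex.ofReal_mul, ← Complex.ofReal_cos, hc']
    congr 1
    unfold l
    rw [show 4 / 3 * (Real.pi / 8) = Real.pi / 6 by ring, Real.cos_pi_div_six]
  have hcz : conj z = (t : ℂ) - (a * l : ℝ) * I := by
    rw [hz]
    simp [sub_eq_add_neg]
  have e2 : Complex.cos (2 * ((4 / 3 : ℝ) : ℂ) * (-(((2 - a) * l : ℝ) : ℂ) + t * I) +
      ((4 / 3 : ℝ) : ℂ) * (NUP1.l : ℂ)) = c * conj (wz z) * I := by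
    have e3 : 2 * ((4 / 3 : ℝ) : ℂ) * (-(((2 - a) * l : ℝ) : ℂ) + t * I) + ((4 / 3 : ℝ) : ℂ) * (NUP1.l : ℂ) =
        (8 / 3 * conj z) * I - Real.pi / 2 := by
      rw [hl1, hcz]
      unfold l
      push_cast
      linear_combination (a * (Real.pi / 8) * (8 / 3) : ℂ) * Complex.I_sq
    rw [e3, Complex.cos_sub_pi_div_two, Complex.sin_mul_I]
    have e4 : conj (wz z) = 2 / (√3 : ℝ) * Complex.sinh (8 / 3 * conj z) := by
      unfold wz
      rw [map_mul, map_div₀, Complex.conj_ofReal, Complex.conj_ofNat, ← Complex.sinh_conj, map_mul, map_div₀,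
        Complex.conj_ofNat, Complex.conj_ofNat]
    rw [e4, hc']
    have h3 : ((√3 : ℝ) : ℂ) ≠ 0 := Complex.ofReal_ne_zero.2 sq3_pos.ne'
    push_cast
    field_simp
  unfold NUP1.psi
  rw [e1, e2, norm_div]
  have e5 : c * conj (wz z) * I - c = -(c * conj (1 + I * wz z)) := by
    rw [map_add, map_mul, Complex.conj_I, map_one]
    ring
  have e6 : c * conj (wz z) * I + c = c * conj (1 - I * wz z) := by
    rw [map_sub, map_mul, Complex.conj_I, map_one]
    ring
  rw [e5, e6, norm_neg, norm_mul, norm_mul, RCLike.norm_conj, RCLike.norm_conj, mul_div_mul_left]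
  exact (norm_pos_iff.2 hc0).ne'

end

end NUMFH
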