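import Pool.Agent.NUMFH.Weights
import Pool.Agent.NUO.SlackN

/-!
# The slack of the sea `Ph`

`slkh t = ∫ Ph(s) ψ_S(t - s) ds`; `slkh_le : slkh t + Ph t / 50 ≤ 2 Agh (1/4) t`.

`2 Agh (1/4) - slkh = (1/2) Lk 3 (5/4) - Lk 3 (3/4) + (9/10) Lk 3 (1/4)`, and every Taylor coefficient of
`artanh (σ₅ u) - 2 artanh (σ₃ u) + (9/5) artanh (σ₁ u)` is positive.
-/

set_option autoImplicit false

open MeasureTheory Set Filter Topology

namespace NUMFH

open NUMF
open NUSea (Ph)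
open NUHM (Agh Th)
open NUSlk (Inv Pair psk psiS Lk uL)

noncomputable section

/-- the slack of the sea `Ph` -/
def slkh (t : ℝ) : ℝ := ∫ s, Ph s * psiS (t - s)

lemma Ph_fwd (k : ℝ) : ∫ s, Ph s * Real.cos (k * s) = NUSlk.hh k * (1 / (2 * ck1 k - 1)) := by
  have h := (NUHM.Ph_cos k 0).2
  have e : ∀ s : ℝ, Real.cos ((0 - s) * k) = Real.cos (k * s) := by
    intro s
    rw [← Real.cos_neg]
    congr 1
    ring
  simp_rw [e] at h
  rw [h, zero_mul, Real.cos_zero]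
  have e3 : l / 2 * k = 1 / 2 * NUO.yk k := by unfold NUO.yk l; ring
  rw [e3]
  rfl

theorem slkh_pair : Pair slkh (fun k => psk k * (NUSlk.hh k * (1 / (2 * ck1 k - 1)))) :=
  NUSlk.psiS_pair.conv NUHM.Ph_integrable NUSea.Ph_neg fun k _ => Ph_fwd k

theorem slkh_nonneg (t : ℝ) : 0 ≤ slkh t :=
  integral_nonneg fun s => mul_nonneg (NUHM.Ph_pos s).le (NUSlk.psiS_nonneg _)

theorem slkh_neg (t : ℝ) : slkh (-t) = slkh t := slkh_pair.toInv.even t
theorem slkh_cont : Continuous slkh := slkh_pair.toInv.cont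
theorem slkh_integrable : Integrable slkh := slkh_pair.int

/-- `2 Ag a` as an inverse transform -/
theorem Ag_invg {a : ℝ} (ha : |a| < 1) : Inv (fun t => 2 * Ag a t)
    (fun k => 4 * Real.pi / k * Real.sinh (a * NUO.yk k) * (1 / (2 * ck1 k - 1))) := by
  have hpi := Real.pi_pos
  have hl := l_pos
  have hτ : |(a * l : ℝ)| < l := by
    rw [abs_mul, abs_of_pos hl]
    exact mul_lt_of_lt_one_left hl ha
  have hf : ∀ x k : ℝ, 4 * Real.pi / k * Real.sinh (a * NUO.yk k) * (1 / (2 * ck1 k - 1)) * Real.cos (k * x) =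
      4 * Real.pi * (Real.cos (k * x) * Real.sinh (k * (a * l)) / (k * (2 * ck1 k - 1))) := by
    intro x k
    have e : a * NUO.yk k = k * (a * l) := by unfold NUO.yk l; ring
    rw [e]
    by_cases hk : k = 0
    · subst hk; simp
    · have := dkp k
      field_simp
  refine ⟨?_, fun t => ?_⟩
  · have h1 := (Gc_im_fourier 0 hτ).1.const_mul (4 * Real.pi)
    refine h1.congr (Eventually.of_forall fun k => ?_)
    have := hf 0 k
    simp only [mul_zero, Real.cos_zero, mul_one] at this ⊢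
    exact this.symm
  · have h1 := (Gc_im_fourier t hτ).2
    simp_rw [hf]
    rw [integral_const_mul, ← h1]
    unfold Ag
    push_cast
    field_simp
    ring

/-- `2 Agh a` as an inverse transform -/
theorem Agh_inv {a : ℝ} (ha : |a| < 1 / 2) : Inv (fun t => 2 * Agh a t)
    (fun k => 4 * Real.pi / k * Real.sinh (a * NUO.yk k) * (NUSlk.hh k * (1 / (2 * ck1 k - 1)))) := by
  obtain ⟨a1, a2⟩ := abs_lt.1 ha
  have h1 := Ag_invg (a := a + 1 / 2) (by rw [abs_lt]; constructor <;> linarith)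
  have h2 := Ag_invg (a := a - 1 / 2) (by rw [abs_lt]; constructor <;> linarith)
  have h3 := (h1.smul (1 / 2)).add (h2.smul (1 / 2))
  have e : (fun t => 1 / 2 * (2 * Ag (a + 1 / 2) t) + 1 / 2 * (2 * Ag (a - 1 / 2) t)) =
      fun t => 2 * Agh a t := by
    funext t
    unfold NUHM.Agh
    ring
  rw [e] at h3
  refine h3.congr fun k _ => ?_
  unfold NUSlk.hh
  rw [show (a + 1 / 2) * NUO.yk k = a * NUO.yk k + 1 / 2 * NUO.yk k by ring,
    show (a - 1 / 2) * NUO.yk k = a * NUO.yk k - 1 / 2 * NUO.yk k by ring, Real.sinh_add, Real.sinh_sub]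
  ring

/-- `2 Agh (1/4) - slkh` -/
theorem Agh_sub_slkh (t : ℝ) : 2 * Agh (1 / 4) t - slkh t =
    1 / 2 * Lk 3 (5 / 4) t - Lk 3 (3 / 4) t + 9 / 10 * Lk 3 (1 / 4) t := by
  have h1 := (Agh_inv (a := 1 / 4) (by rw [abs_of_pos] <;> norm_num)).sub slkh_pair.toInv
  have h2 := (((NUSlk.Lk_pair (N := 3) (b := 5 / 4) (by norm_num) (by norm_num)).toInv.smul (1 / 2)).sub
    (NUSlk.Lk_pair (N := 3) (b := 3 / 4) (by norm_num) (by norm_num)).toInv).add
    ((NUSlk.Lk_pair (N := 3) (b := 1 / 4) (by norm_num) (by norm_num)).toInv.smul (9 / 10))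
  have h3 := h2.congr (v := fun k => 4 * Real.pi / k * Real.sinh (1 / 4 * NUO.yk k) *
      (NUSlk.hh k * (1 / (2 * ck1 k - 1))) -
    psk k * (NUSlk.hh k * (1 / (2 * ck1 k - 1)))) (fun k hk => by
      have hp := NUSlk.hh_pos k
      have hd := dkp k
      have e1 := NUSlk.ck1_eq k
      rw [e1] at hd ⊢
      have a1 : 3 / 4 * NUO.yk k = 1 / 2 * NUO.yk k + 1 / 4 * NUO.yk k := by ring
      have a2 : Real.sinh (1 / 4 * NUO.yk k) = Real.sinh (1 / 2 * NUO.yk k - 1 / 4 * NUO.yk k) := by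
        congr 1; ring
      have a3 := Real.sinh_add (1 / 2 * NUO.yk k) (1 / 4 * NUO.yk k)
      have a4 := Real.sinh_sub (1 / 2 * NUO.yk k) (1 / 4 * NUO.yk k)
      rw [← a2] at a4
      have e2 : Real.sinh (3 / 4 * NUO.yk k) = Real.sinh (1 / 4 * NUO.yk k) * (2 * NUSlk.hh k + 1) := by
        unfold NUSlk.hh
        rw [a1]
        linarith
      have e3 : Real.sinh (5 / 4 * NUO.yk k) = Real.sinh (1 / 4 * NUO.yk k) *
          (4 * NUSlk.hh k ^ 2 + 2 * NUSlk.hh k - 1) := by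
        have b1 : 5 / 4 * NUO.yk k = 3 / 4 * NUO.yk k + 1 / 2 * NUO.yk k := by ring
        have b2 : 1 / 4 * NUO.yk k = 3 / 4 * NUO.yk k - 1 / 2 * NUO.yk k := by ring
        have b3 := Real.sinh_add (3 / 4 * NUO.yk k) (1 / 2 * NUO.yk k)
        have b4 := Real.sinh_sub (3 / 4 * NUO.yk k) (1 / 2 * NUO.yk k)
        rw [← b2] at b4
        rw [b1]
        have b5 : Real.sinh (3 / 4 * NUO.yk k + 1 / 2 * NUO.yk k) =
            2 * (Real.sinh (3 / 4 * NUO.yk k) * NUSlk.hh k) - Real.sinh (1 / 4 * NUO.yk k) := by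
          unfold NUSlk.hh
          linarith
        rw [b5, e2]
        ring
      unfold uL psk
      rw [NUSlk.cosh32, e2, e3]
      field_simp
      ring)
  have h4 := congrFun (h1.unique h3) t
  simpa using h4

/-! ### the inequality -/

lemma Lk3 {b t : ℝ} (hb : 0 < b) (hN : b < 3 / 2) : Lk 3 b t =
    Real.log (1 + Real.sin (Real.pi * b / 3) * (1 / ch t)) -
      Real.log (1 - Real.sin (Real.pi * b / 3) * (1 / ch t)) := by
  obtain ⟨s0, s1⟩ := NUSlk.sin_lt_one' (N := 3) hb (by linarith)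
  have hc := one_le_ch t
  have hc0 := ch_pos t
  have h1 : (ch t + Real.sin (Real.pi * b / 3)) / (ch t - Real.sin (Real.pi * b / 3)) =
      (1 + Real.sin (Real.pi * b / 3) * (1 / ch t)) / (1 - Real.sin (Real.pi * b / 3) * (1 / ch t)) := by
    rw [div_eq_div_iff (by linarith)]
    · field_simp
    · have : Real.sin (Real.pi * b / 3) * (1 / ch t) < 1 := by
        rw [mul_one_div, div_lt_one hc0]
        linarith
      linarith
  have h2 : Real.sin (Real.pi * b / 3) * (1 / ch t) < 1 := by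
    rw [mul_one_div, div_lt_one hc0]
    linarith
  have h3 : 0 < Real.sin (Real.pi * b / 3) * (1 / ch t) := by positivity
  unfold Lk
  change Real.log ((ch t + Real.sin (Real.pi * b / 3)) / (ch t - Real.sin (Real.pi * b / 3))) = _
  rw [h1, Real.log_div (by linarith) (by linarith)]

/-- `σ₅ = ρ σ₃`, `σ₁ = τ σ₃`, `ρ = (√3 + 1) / 2`, `τ = (√3 - 1) / 2`, `σ₃ = √2 / 2` -/
lemma sin5 : Real.sin (Real.pi * (5 / 4) / 3) = (√3 + 1) / 2 * (√2 / 2) := by
  rw [show Real.pi * (5 / 4) / 3 = Real.pi / 4 + Real.pi / 6 by ring, Real.sin_add, Real.sin_pi_div_four,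
    Real.cos_pi_div_four, Real.sin_pi_div_six, Real.cos_pi_div_six]
  ring

lemma sin3 : Real.sin (Real.pi * (3 / 4) / 3) = √2 / 2 := by
  rw [show Real.pi * (3 / 4) / 3 = Real.pi / 4 by ring, Real.sin_pi_div_four]

lemma sin1 : Real.sin (Real.pi * (1 / 4) / 3) = (√3 - 1) / 2 * (√2 / 2) := by
  rw [show Real.pi * (1 / 4) / 3 = Real.pi / 4 - Real.pi / 6 by ring, Real.sin_sub, Real.sin_pi_div_four,
    Real.cos_pi_div_four, Real.sin_pi_div_six, Real.cos_pi_div_six]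
  ring

/-- the sum of the three series -/
lemma series_ge {y ρ τ : ℝ} (hy : 0 < y) (hρ : 27 / 20 ≤ ρ) (hρ1 : ρ * y < 1) (hτ : 0 ≤ τ)
    (hτ1 : τ ≤ 1) :
    2 * (y * (ρ - 2 + 9 / 5 * τ)) + 2 / 3 * (y ^ 3 * (ρ ^ 3 - 2 + 9 / 5 * τ ^ 3)) ≤
      (Real.log (1 + ρ * y) - Real.log (1 - ρ * y)) - 2 * (Real.log (1 + y) - Real.log (1 - y)) +
        9 / 5 * (Real.log (1 + τ * y) - Real.log (1 - τ * y)) := by
  have hy1 : y < 1 := by nlinarith
  have s1 := Real.hasSum_log_sub_log_of_abs_lt_one (x := ρ * y) (by rw [abs_of_pos (by positivity)]; exact hρ1)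
  have s2 := Real.hasSum_log_sub_log_of_abs_lt_one (x := y) (by rw [abs_of_pos hy]; exact hy1)
  have s3 := Real.hasSum_log_sub_log_of_abs_lt_one (x := τ * y) (by
    rw [abs_of_nonneg (by positivity)]
    exact lt_of_le_of_lt (mul_le_of_le_one_left hy.le hτ1) hy1)
  have s := (s1.sub (s2.mul_left 2)).add (s3.mul_left (9 / 5))
  have h := sum_le_hasSum (Finset.range 2) (fun i hi => ?_) s
  · refine le_trans (le_of_eq ?_) h
    rw [Finset.sum_range_succ, Finset.sum_range_one]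
    push_cast
    ring
  · rw [Finset.mem_range, not_lt] at hi
    have e : 2 * (1 / (2 * (i : ℝ) + 1)) * (ρ * y) ^ (2 * i + 1) -
        2 * (2 * (1 / (2 * (i : ℝ) + 1)) * y ^ (2 * i + 1)) +
        9 / 5 * (2 * (1 / (2 * (i : ℝ) + 1)) * (τ * y) ^ (2 * i + 1)) =
        2 * (1 / (2 * (i : ℝ) + 1)) * y ^ (2 * i + 1) *
          (ρ ^ (2 * i + 1) - 2 + 9 / 5 * τ ^ (2 * i + 1)) := by
      rw [mul_pow, mul_pow]
      ring
    rw [e]
    have h3 : 2 ≤ ρ ^ (2 * i + 1) := by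
      calc (2:ℝ) ≤ (27 / 20) ^ 3 := by norm_num
        _ ≤ ρ ^ 3 := by gcongr
        _ ≤ ρ ^ (2 * i + 1) := pow_le_pow_right₀ (by linarith) (by omega)
    have h4 : 0 ≤ τ ^ (2 * i + 1) := by positivity
    have h5 : 0 ≤ ρ ^ (2 * i + 1) - 2 + 9 / 5 * τ ^ (2 * i + 1) := by linarith
    positivity

lemma real_ineq_h (t : ℝ) : Ph t / 50 ≤
    1 / 2 * Lk 3 (5 / 4) t - Lk 3 (3 / 4) t + 9 / 10 * Lk 3 (1 / 4) t := by
  have hpi := Real.pi_pos
  have hpi' := Real.pi_gt_d2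
  have h3s : (1.732:ℝ) < √3 := by
    rw [Real.lt_sqrt (by norm_num)]; norm_num
  have h3s' : √(3:ℝ) < 1.733 := by
    rw [Real.sqrt_lt' (by norm_num)]; norm_num
  have h2s : (1.414:ℝ) < √2 := by
    rw [Real.lt_sqrt (by norm_num)]; norm_num
  have h2s' : √(2:ℝ) < 1.415 := by
    rw [Real.sqrt_lt' (by norm_num)]; norm_num
  have hC := one_le_ch t
  have hC0 := ch_pos t
  rw [Lk3 (by norm_num) (by norm_num), Lk3 (by norm_num) (by norm_num), Lk3 (by norm_num) (by norm_num),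
    sin5, sin3, sin1]
  set u := 1 / ch t with hu
  have hu0 : 0 < u := by positivity
  have hu1 : u ≤ 1 := by rw [hu, div_le_one hC0]; exact hC
  have hCu : ch t = 1 / u := by rw [hu]; field_simp
  have hu2 : u ^ 2 ≤ 1 := pow_le_one₀ hu0.le hu1
  have k := series_ge (y := √2 / 2 * u) (ρ := (√3 + 1) / 2) (τ := (√3 - 1) / 2) (by positivity)
    (by linarith) (by
      have h6 : √2 / 2 * u ≤ 0.7075 * 1 := by gcongr; linarith
      have h7 : (√3 + 1) / 2 ≤ 1.3665 := by linarith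
      have h8 : (√3 + 1) / 2 * (√2 / 2 * u) ≤ 1.3665 * (0.7075 * 1) := by gcongr
      refine lt_of_le_of_lt h8 (by norm_num)) (by linarith) (by linarith)
  -- the two coefficients
  have q3 := sq3
  have c1 : (√3 + 1) / 2 - 2 + 9 / 5 * ((√3 - 1) / 2) = 7 / 5 * √3 - 12 / 5 := by ring
  have c3 : ((√3 + 1) / 2) ^ 3 - 2 + 9 / 5 * ((√3 - 1) / 2) ^ 3 = 21 / 10 * √3 - 3 := by
    linear_combination (1 / 8 * (√3 + 3) + 9 / 40 * (√3 - 3)) * q3
  rw [c1, c3] at k
  -- the density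
  have e3 : Ph t / 50 ≤ 0.0256 * (u / 2 + u ^ 3 / 2) := by
    have a2 : (2 * ch t ^ 2 - 1) / (ch t * (4 * ch t ^ 2 - 3)) ≤ u / 2 + u ^ 3 / 2 := by
      have a3 : (2 * ch t ^ 2 - 1) / (ch t * (4 * ch t ^ 2 - 3)) = u * (2 - u ^ 2) / (4 - 3 * u ^ 2) := by
        rw [hCu]
        have : (0:ℝ) < 4 - 3 * u ^ 2 := by linarith
        field_simp
      rw [a3, div_le_iff₀ (by linarith)]
      have a6 : (u / 2 + u ^ 3 / 2) * (4 - 3 * u ^ 2) - u * (2 - u ^ 2) =
          3 / 2 * (u ^ 3 * (1 - u ^ 2)) := by ring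
      have a7 : 0 ≤ u ^ 3 * (1 - u ^ 2) := mul_nonneg (by positivity) (by linarith)
      linarith
    have a4 : 4 / Real.pi / 50 ≤ 0.0256 := by
      rw [div_div, div_le_iff₀ (by positivity)]
      linarith
    have a5 : 0 ≤ (2 * ch t ^ 2 - 1) / (ch t * (4 * ch t ^ 2 - 3)) :=
      div_nonneg (by nlinarith) (mul_pos hC0 (NUSea.d3_pos t)).le
    calc Ph t / 50 = (4 / Real.pi / 50) * ((2 * ch t ^ 2 - 1) / (ch t * (4 * ch t ^ 2 - 3))) := by
          unfold NUSea.Ph; ring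
      _ ≤ 0.0256 * ((2 * ch t ^ 2 - 1) / (ch t * (4 * ch t ^ 2 - 3))) := mul_le_mul_of_nonneg_right a4 a5
      _ ≤ _ := mul_le_mul_of_nonneg_left a2 (by norm_num)
  have m1 : 0.0175 * u ≤ √2 / 2 * u * (7 / 5 * √3 - 12 / 5) := by
    have : (0.707:ℝ) * u * 0.0248 ≤ √2 / 2 * u * (7 / 5 * √3 - 12 / 5) := by
      gcongr
      · linarith
      · linarith
    linarith
  have m2 : 0.2 * u ^ 3 ≤ (√2 / 2 * u) ^ 3 * (21 / 10 * √3 - 3) := by
    have : ((0.707:ℝ) * u) ^ 3 * 0.637 ≤ (√2 / 2 * u) ^ 3 * (21 / 10 * √3 - 3) := by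
      gcongr
      · linarith
      · linarith
    have h9 : ((0.707:ℝ) * u) ^ 3 * 0.637 = 0.707 ^ 3 * 0.637 * u ^ 3 := by ring
    rw [h9] at this
    have hu3 : 0 < u ^ 3 := by positivity
    have h10 : (0.2:ℝ) * u ^ 3 ≤ 0.707 ^ 3 * 0.637 * u ^ 3 :=
      mul_le_mul_of_nonneg_right (by norm_num) hu3.le
    linarith
  have hu3 : 0 < u ^ 3 := by positivity
  rw [show (√3 + 1) / 2 * (√2 / 2) * u = (√3 + 1) / 2 * (√2 / 2 * u) by ring,
    show (√3 - 1) / 2 * (√2 / 2) * u = (√3 - 1) / 2 * (√2 / 2 * u) by ring]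
  linarith

/-- **one-body inequality of the slack** -/
theorem slkh_le (t : ℝ) : slkh t + 1 / 50 * Ph t ≤ 2 * Agh (1 / 4) t := by
  have h1 := Agh_sub_slkh t
  have h2 := real_ineq_h t
  linarith

end

end NUMFH
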