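import Pool.Agent.NUP.MF.StripD
import Pool.Agent.NUP.MF.Shift
import Pool.Agent.NUP.MF.Forward
import Pool.Agent.NUAct.FE
import Pool.Agent.NUP.MF.Cont

/-!
# The sea of rows at `± b`: averages against `Pb b s = Re P(s + i b)`

For `0 ≤ b < l`:
* `avg`: `∫ Pb f = (1/2) ∫ P(s) (f(s + i b) + f(s - i b))` for `f` analytic in `|Im z| ≤ b`;
* `Hb_eq`: `∫ Pb(s) h(x - s, y) ds = (H x (y + b) + H x (y - b)) / 2` for `|y| + b ≤ 4 l`;
* `conv_Vb`: `∫ Pb(s) V(t - s) ds = Re vc(t + i b)`;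
* `Pb_forward`: `Pb^(k) = cosh (k b) / (2 cosh (π k / 8) - 1)`.
-/

set_option autoImplicit false

open MeasureTheory Set Filter Topology Complex

noncomputable section

namespace NUMFH

open NUMF NUAct

/-- density of the sea of rows at `± b` -/
def Pb (b s : ℝ) : ℝ := (Pc (s + b * I)).re

lemma Pc_conj (z : ℂ) : Pc ((starRingEnd ℂ) z) = (starRingEnd ℂ) (Pc z) := by
  unfold Pc
  have h1 : Complex.cosh (8 / 3 * (starRingEnd ℂ) z) = (starRingEnd ℂ) (Complex.cosh (8 / 3 * z)) := by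
    rw [← Complex.cosh_conj, map_mul, map_div₀]
    congr 2
    simp [Complex.conj_ofNat]
  rw [h1]
  simp [map_mul, map_add, map_div₀, map_sub, map_ofNat, Complex.conj_ofReal]

lemma Pb_add (b s : ℝ) : Pc (s + b * I) + Pc (s - b * I) = 2 * (Pb b s : ℂ) := by
  have h1 : (s : ℂ) - b * I = (starRingEnd ℂ) ((s : ℂ) + b * I) := by
    rw [map_add, map_mul, Complex.conj_ofReal, Complex.conj_ofReal, Complex.conj_I]
    ring
  rw [h1, Pc_conj, Complex.add_conj]
  unfold Pb
  push_cast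
  ring

lemma Pb_neg (b s : ℝ) : Pb b (-s) = Pb b s := by
  unfold Pb
  have h1 : ((-s : ℝ) : ℂ) + b * I = -((starRingEnd ℂ) ((s : ℂ) + b * I)) := by
    rw [map_add, map_mul, Complex.conj_ofReal, Complex.conj_ofReal, Complex.conj_I]
    push_cast
    ring
  rw [h1, Pc_neg, Pc_conj, Complex.conj_re]

lemma Pb_zero (s : ℝ) : Pb 0 s = P s := by
  unfold Pb
  rw [Complex.ofReal_zero, zero_mul, add_zero, Pc_ofReal, Complex.ofReal_re]

variable {b : ℝ}

lemma im_pt (s b : ℝ) : ((s : ℂ) + b * I).im = b := by simp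

lemma Pb_cont (hb0 : 0 ≤ b) (hb : b < l) : Continuous (Pb b) := by
  unfold Pb
  refine Complex.continuous_re.comp ?_
  have hc : ContinuousOn Pc {w : ℂ | |w.im| < l} := fun w hw =>
    (Pc_diff hw).continuousAt.continuousWithinAt
  refine hc.comp_continuous (by fun_prop) fun s => ?_
  simpa [abs_of_nonneg hb0] using hb

lemma Pb_le (hb0 : 0 ≤ b) (hb : b < l) : ∃ C : ℝ, 0 ≤ C ∧ ∀ s, |Pb b s| ≤ C * P s := by
  obtain ⟨C, hC, h⟩ := Pc_norm_P hb0 hb
  refine ⟨C, hC, fun s => ?_⟩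
  have h1 := h ((s : ℂ) + b * I) (by rw [im_pt, abs_of_nonneg hb0])
  have h2 : ((s : ℂ) + b * I).re = s := by simp
  rw [h2] at h1
  exact (Complex.abs_re_le_norm _).trans h1

lemma Pb_integrable (hb0 : 0 ≤ b) (hb : b < l) : Integrable (Pb b) := by
  obtain ⟨C, hC, h⟩ := Pb_le hb0 hb
  exact (P_integrable.const_mul C).mono' (Pb_cont hb0 hb).aestronglyMeasurable
    (Eventually.of_forall fun s => by rw [Real.norm_eq_abs]; exact h s)

/-! ### shifts -/

theorem shift_up {f : ℂ → ℂ} {A c : ℝ} (hb0 : 0 ≤ b) (hb : b < l) (hc : c < 8 / 3)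
    (hfd : ∀ z : ℂ, |z.im| ≤ b → DifferentiableAt ℂ f z)
    (hfb : ∀ z : ℂ, |z.im| ≤ b → ‖f z‖ ≤ A * Real.exp (c * |z.re|)) :
    Integrable (fun s : ℝ => (P s : ℂ) * f (s - b * I)) ∧
    Integrable (fun s : ℝ => Pc (s + b * I) * f s) ∧
      ∫ s : ℝ, (P s : ℂ) * f (s - b * I) = ∫ s : ℝ, Pc (s + b * I) * f s := by
  obtain ⟨C, hC, hP⟩ := Pc_deriv_exp hb0 hb 0
  have hsub : ∀ z : ℂ, 0 ≤ z.im → z.im ≤ b → |(z - b * I).im| ≤ b := by
    intro z h0 h1
    have : (z - b * I).im = z.im - b := by simp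
    rw [this, abs_le]
    constructor <;> linarith
  have habs : ∀ z : ℂ, 0 ≤ z.im → z.im ≤ b → |z.im| ≤ b := by
    intro z h0 h1
    rwa [abs_of_nonneg h0]
  obtain ⟨i1, i2, e⟩ := hshift (Φ := fun z => Pc z * f (z - b * I)) (θ := b) (C := C * A)
    (κ := 8 / 3 - c) hb0 (by linarith)
    (fun z hz => by
      have d1 := Pc_diff (lt_of_le_of_lt (habs z hz.1 hz.2) hb)
      have d2 : DifferentiableAt ℂ (fun z => f (z - b * I)) z :=
        (hfd _ (hsub z hz.1 hz.2)).comp z (differentiableAt_id.sub_const _)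
      exact (d1.mul d2).continuousAt.continuousWithinAt)
    (fun z h0 h1 => by
      have d1 := Pc_diff (lt_of_le_of_lt (habs z h0.le h1.le) hb)
      have d2 : DifferentiableAt ℂ (fun z => f (z - b * I)) z :=
        (hfd _ (hsub z h0.le h1.le)).comp z (differentiableAt_id.sub_const _)
      exact d1.mul d2)
    (fun z h0 h1 _ => by
      have b1 := hP z (habs z h0 h1)
      rw [iteratedDeriv_zero] at b1
      have b2 := hfb _ (hsub z h0 h1)
      have hre : (z - b * I).re = z.re := by simp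
      rw [hre] at b2
      rw [norm_mul]
      calc ‖Pc z‖ * ‖f (z - b * I)‖ ≤ (C * Real.exp (-(8 / 3) * |z.re|)) *
            (A * Real.exp (c * |z.re|)) := mul_le_mul b1 b2 (norm_nonneg _) (by positivity)
        _ = C * A * (Real.exp (-(8 / 3) * |z.re|) * Real.exp (c * |z.re|)) := by ring
        _ = _ := by rw [← Real.exp_add]; congr 2; ring)
  have e1 : ∀ s : ℝ, Pc (s : ℂ) * f (s - b * I) = (P s : ℂ) * f (s - b * I) := by
    intro s; rw [Pc_ofReal]
  have e2 : ∀ s : ℝ, Pc (s + b * I) * f ((s : ℂ) + b * I - b * I) = Pc (s + b * I) * f s := by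
    intro s; rw [add_sub_cancel_right]
  simp_rw [e1] at i1 e
  simp_rw [e2] at i2 e
  exact ⟨i1, i2, e⟩

theorem shift_dn {f : ℂ → ℂ} {A c : ℝ} (hb0 : 0 ≤ b) (hb : b < l) (hc : c < 8 / 3)
    (hfd : ∀ z : ℂ, |z.im| ≤ b → DifferentiableAt ℂ f z)
    (hfb : ∀ z : ℂ, |z.im| ≤ b → ‖f z‖ ≤ A * Real.exp (c * |z.re|)) :
    Integrable (fun s : ℝ => (P s : ℂ) * f (s + b * I)) ∧
    Integrable (fun s : ℝ => Pc (s - b * I) * f s) ∧
      ∫ s : ℝ, (P s : ℂ) * f (s + b * I) = ∫ s : ℝ, Pc (s - b * I) * f s := by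
  obtain ⟨C, hC, hP⟩ := Pc_deriv_exp hb0 hb 0
  have hsub : ∀ z : ℂ, 0 ≤ z.im → z.im ≤ b → |(z - b * I).im| ≤ b := by
    intro z h0 h1
    have : (z - b * I).im = z.im - b := by simp
    rw [this, abs_le]
    constructor <;> linarith
  have habs : ∀ z : ℂ, 0 ≤ z.im → z.im ≤ b → |z.im| ≤ b := by
    intro z h0 h1
    rwa [abs_of_nonneg h0]
  obtain ⟨i1, i2, e⟩ := hshift (Φ := fun z => Pc (z - b * I) * f z) (θ := b) (C := C * A)
    (κ := 8 / 3 - c) hb0 (by linarith)
    (fun z hz => by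
      have d0 : DifferentiableAt ℂ Pc (z - b * I) := Pc_diff (lt_of_le_of_lt (hsub z hz.1 hz.2) hb)
      have d1 : DifferentiableAt ℂ (fun z => Pc (z - b * I)) z :=
        DifferentiableAt.comp (g := Pc) (f := fun z : ℂ => z - b * I) z d0 (differentiableAt_id.sub_const _)
      exact (d1.mul (hfd _ (habs z hz.1 hz.2))).continuousAt.continuousWithinAt)
    (fun z h0 h1 => by
      have d0 : DifferentiableAt ℂ Pc (z - b * I) := Pc_diff (lt_of_le_of_lt (hsub z h0.le h1.le) hb)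
      have d1 : DifferentiableAt ℂ (fun z => Pc (z - b * I)) z :=
        DifferentiableAt.comp (g := Pc) (f := fun z : ℂ => z - b * I) z d0 (differentiableAt_id.sub_const _)
      exact d1.mul (hfd _ (habs z h0.le h1.le)))
    (fun z h0 h1 _ => by
      have b1 := hP _ (hsub z h0 h1)
      rw [iteratedDeriv_zero] at b1
      have b2 := hfb _ (habs z h0 h1)
      have hre : (z - b * I).re = z.re := by simp
      rw [hre] at b1
      rw [norm_mul]
      calc ‖Pc (z - b * I)‖ * ‖f z‖ ≤ (C * Real.exp (-(8 / 3) * |z.re|)) *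
            (A * Real.exp (c * |z.re|)) := mul_le_mul b1 b2 (norm_nonneg _) (by positivity)
        _ = C * A * (Real.exp (-(8 / 3) * |z.re|) * Real.exp (c * |z.re|)) := by ring
        _ = _ := by rw [← Real.exp_add]; congr 2; ring)
  have e2 : ∀ s : ℝ, Pc ((s : ℂ) + b * I - b * I) * f (s + b * I) = (P s : ℂ) * f (s + b * I) := by
    intro s; rw [add_sub_cancel_right, Pc_ofReal]
  simp_rw [e2] at i2 e
  exact ⟨i2, i1, e.symm⟩

/-- **average against `Pb`** -/
theorem avg {f : ℂ → ℂ} {A c : ℝ} (hb0 : 0 ≤ b) (hb : b < l) (hc : c < 8 / 3)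
    (hfd : ∀ z : ℂ, |z.im| ≤ b → DifferentiableAt ℂ f z)
    (hfb : ∀ z : ℂ, |z.im| ≤ b → ‖f z‖ ≤ A * Real.exp (c * |z.re|)) :
    Integrable (fun s : ℝ => (Pb b s : ℂ) * f s) ∧
    Integrable (fun s : ℝ => (P s : ℂ) * f (s + b * I)) ∧
    Integrable (fun s : ℝ => (P s : ℂ) * f (s - b * I)) ∧
      ∫ s : ℝ, (Pb b s : ℂ) * f s =
        (∫ s : ℝ, (P s : ℂ) * f (s + b * I)) / 2 + (∫ s : ℝ, (P s : ℂ) * f (s - b * I)) / 2 := by
  obtain ⟨a1, a2, a3⟩ := shift_up hb0 hb hc hfd hfb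
  obtain ⟨d1, d2, d3⟩ := shift_dn hb0 hb hc hfd hfb
  have e : ∀ s : ℝ, (Pb b s : ℂ) * f s = 1 / 2 * (Pc (s + b * I) * f s + Pc (s - b * I) * f s) := by
    intro s
    linear_combination (-(1 / 2) * f s) * Pb_add b s
  have hi := (a2.add d2).const_mul (1 / 2 : ℂ)
  refine ⟨hi.congr (Eventually.of_forall fun s => (e s).symm), d1, a1, ?_⟩
  simp_rw [e]
  rw [integral_const_mul, integral_add a2 d2, ← a3, ← d3]
  ring

/-! ### the potentials `h` -/

/-- the average of `h` against `Pb` -/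
def Hb (b x y : ℝ) : ℝ := ∫ s, Pb b s * h (x - s) y

lemma Pbh_meas (hb0 : 0 ≤ b) (hb : b < l) (x y : ℝ) :
    AEStronglyMeasurable (fun s : ℝ => Pb b s * h (x - s) y) :=
  (Pb_cont hb0 hb).aestronglyMeasurable.mul
    (((h_meas y).comp (measurable_const.sub measurable_id)).aestronglyMeasurable)

lemma Pbh_le (hb0 : 0 ≤ b) (hb : b < l) : ∃ C : ℝ, 0 ≤ C ∧ ∀ x s y : ℝ, x - s ≠ 0 →
    ‖Pb b s * h (x - s) y‖ ≤ C * maj x s := by
  obtain ⟨C, hC, hP⟩ := Pb_le hb0 hb
  refine ⟨C, hC, fun x s y hs => ?_⟩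
  rw [Real.norm_eq_abs, abs_mul]
  have h1 := abs_h_le hs y
  have h2 := hP s
  have h3 := (P_pos s).le
  calc |Pb b s| * |h (x - s) y| ≤ (C * P s) * (2 * |x - s| + 2 * |Real.log (x - s)| + 1) :=
        mul_le_mul h2 h1 (abs_nonneg _) (by positivity)
    _ = _ := by unfold maj; ring

lemma Pbh_integrable (hb0 : 0 ≤ b) (hb : b < l) (x y : ℝ) :
    Integrable fun s : ℝ => Pb b s * h (x - s) y := by
  obtain ⟨C, hC, hP⟩ := Pbh_le hb0 hb
  refine ((maj_integrable x).const_mul C).mono' (Pbh_meas hb0 hb x y) ?_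
  filter_upwards [ae_ne x] with s hs
  exact hP x s y hs

lemma Hb_cont (hb0 : 0 ≤ b) (hb : b < l) (x : ℝ) : Continuous fun y => Hb b x y := by
  obtain ⟨C, hC, hP⟩ := Pbh_le hb0 hb
  unfold Hb
  refine continuous_of_dominated (bound := fun s => C * maj x s)
    (fun y => Pbh_meas hb0 hb x y) ?_ ((maj_integrable x).const_mul C) ?_
  · intro y
    filter_upwards [ae_ne x] with s hs
    exact hP x s y hs
  · filter_upwards [ae_ne x] with s hs
    refine continuous_const.mul ?_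
    unfold h
    refine Continuous.log (by fun_prop) fun y => ?_
    have h1 := arg_ge (x - s) y
    have h2 : 0 < 2 * (x - s) ^ 2 := by positivity
    exact (lt_of_lt_of_le h2 h1).ne'

theorem Hb_lt (hb0 : 0 ≤ b) (hb : b < l) (x : ℝ) {y : ℝ} (hy : |y| + b < 4 * l) :
    Hb b x y = (H x (y + b) + H x (y - b)) / 2 := by
  have hl := l_pos
  have hl8 : 8 * l = Real.pi := by unfold l; ring
  set f : ℂ → ℂ := fun z => F ((x + y * I) - z) with hf
  have him : ∀ z : ℂ, ((x + y * I : ℂ) - z).im = y - z.im := by intro z; simp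
  have hre : ∀ z : ℂ, ((x + y * I : ℂ) - z).re = x - z.re := by intro z; simp
  have hin : ∀ z : ℂ, |z.im| ≤ b → |((x + y * I : ℂ) - z).im| ≤ |y| + b := by
    intro z hz
    rw [him]
    exact (abs_sub _ _).trans (by linarith)
  have hb1 : |y| + b < Real.pi / 2 := by linarith
  have hdf : ∀ z : ℂ, |z.im| ≤ b → DifferentiableAt ℂ f z := by
    intro z hz
    have h1 : DifferentiableAt ℂ F ((x + y * I) - z) := F_diff (lt_of_le_of_lt (hin z hz) hb1)
    exact h1.comp z ((differentiableAt_const _).sub differentiableAt_id)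
  set B : ℝ := 2 * |Real.log (Real.cos (|y| + b))| + 2 * Real.pi + 1 with hB
  have hB0 : 0 ≤ B := by have := Real.pi_pos; positivity
  have hbf : ∀ z : ℂ, |z.im| ≤ b → ‖f z‖ ≤ (2 * |x| + B + 2) * Real.exp (1 * |z.re|) := by
    intro z hz
    have h1 := F_bound hb1 (hin z hz)
    rw [hre, ← hB] at h1
    have h2 : |x - z.re| ≤ |x| + |z.re| := abs_sub _ _
    have h3 : |z.re| + 1 ≤ Real.exp (1 * |z.re|) := by
      rw [one_mul]; exact Real.add_one_le_exp _
    have h4 := abs_nonneg x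
    have h5 := abs_nonneg z.re
    have h6 : 1 ≤ Real.exp (1 * |z.re|) := by linarith
    calc ‖f z‖ ≤ 2 * (|x| + |z.re|) + B := by
          rw [hf]
          linarith
      _ ≤ _ := by nlinarith
  obtain ⟨i0, i1, i2, e⟩ := avg (f := f) (A := 2 * |x| + B + 2) (c := 1) hb0 hb (by norm_num) hdf hbf
  have rr : ∀ (s t : ℝ), |t| ≤ b → (f (s + t * I)).re = h (x - s) (y - t) := by
    intro s t ht
    rw [hf]
    simp only
    rw [F_re (lt_of_le_of_lt (hin _ (by simpa using ht)) hb1), him, hre]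
    simp
  have hR : ∀ (ρ : ℝ → ℝ) (z : ℝ → ℂ), Integrable (fun s : ℝ => (ρ s : ℂ) * f (z s)) →
      (∫ s : ℝ, (ρ s : ℂ) * f (z s)).re = ∫ s : ℝ, ρ s * (f (z s)).re := by
    intro ρ z hi
    have h1 := integral_re hi
    have h2 : (∫ s : ℝ, (ρ s : ℂ) * f (z s)).re = ∫ s : ℝ, ((ρ s : ℂ) * f (z s)).re := h1.symm
    rw [h2]
    refine integral_congr_ae (Eventually.of_forall fun s => ?_)
    simp only
    rw [Complex.re_ofReal_mul]
  have hre2 := congrArg Complex.re e
  rw [Complex.add_re, Complex.div_ofNat_re, Complex.div_ofNat_re, hR (Pb b) (fun s => s) i0,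
    hR P (fun s => s + b * I) i1, hR P (fun s => s - b * I) i2] at hre2
  have a0 : ∀ s : ℝ, (f (s : ℂ)).re = h (x - s) y := by
    intro s
    have := rr s 0 (by simpa using hb0)
    rw [show (s : ℂ) + ((0 : ℝ) : ℂ) * I = s by push_cast; ring, sub_zero] at this
    exact this
  have a1 : ∀ s : ℝ, (f (s + b * I)).re = h (x - s) (y - b) := fun s =>
    rr s b (by rw [abs_of_nonneg hb0])
  have a2 : ∀ s : ℝ, (f (s - b * I)).re = h (x - s) (y + b) := by
    intro s
    have := rr s (-b) (by rw [abs_neg, abs_of_nonneg hb0])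
    rw [show (s : ℂ) + ((-b : ℝ) : ℂ) * I = s - b * I by push_cast; ring, sub_neg_eq_add] at this
    exact this
  simp_rw [a0, a1, a2] at hre2
  unfold Hb H
  rw [hre2]
  ring

/-- **`Pb * h(·, y)`** -/
theorem Hb_eq (hb0 : 0 ≤ b) (hb : b < l) (x : ℝ) {y : ℝ} (hy : |y| + b ≤ 4 * l) :
    Hb b x y = (H x (y + b) + H x (y - b)) / 2 := by
  have hl := l_pos
  have hne : -(4 * l - b) ≠ 4 * l - b := by
    intro h0
    linarith
  have hcl : Icc (-(4 * l - b)) (4 * l - b) ⊆ closure (Ioo (-(4 * l - b)) (4 * l - b)) := by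
    rw [closure_Ioo hne]
  have h1 : EqOn (fun y => Hb b x y) (fun y => (H x (y + b) + H x (y - b)) / 2)
      (Ioo (-(4 * l - b)) (4 * l - b)) := fun y hy => Hb_lt hb0 hb x (by
        have := abs_lt.2 hy
        linarith)
  have hc2 : Continuous fun y => (H x (y + b) + H x (y - b)) / 2 :=
    (((H_cont x).comp (continuous_id.add continuous_const)).add
      ((H_cont x).comp (continuous_id.sub continuous_const))).div_const 2
  exact h1.of_subset_closure (Hb_cont hb0 hb x).continuousOn hc2.continuousOn Ioo_subset_Icc_self hcl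
    (abs_le.1 (by linarith : |y| ≤ 4 * l - b))

/-! ### the field -/

/-- **`Pb * V`** -/
theorem conv_Vb (hb0 : 0 ≤ b) (hb : b < l) (t : ℝ) :
    Integrable (fun s => Pb b s * V (t - s)) ∧
      ∫ s, Pb b s * V (t - s) = (NUMF.vc (t + b * I)).re := by
  have hz : |((t : ℂ) + b * I).im| < l := by rwa [im_pt, abs_of_nonneg hb0]
  obtain ⟨K1, hK1⟩ := ks_bd
  obtain ⟨K2, hK2⟩ := kx_bd
  have i1 := J_int ks_meas hK1 hz
  have i2 := J_int kx_cont.aestronglyMeasurable hK2 hz
  have e1 := horiz_s hz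
  have e2 := horiz_x hz
  have i3 := i1.add i2
  have e3 : ∫ u : ℝ, (Pc (t + b * I - u) * ks u + Pc (t + b * I - u) * kx u) =
      NUAct.vc (t + b * I) := by
    rw [integral_add i1 i2, e1, e2, NUAct.vc_eq]
  have hre := congrArg Complex.re e3
  have hr1 := integral_re i3
  have hr2 : (∫ u : ℝ, (Pc (t + b * I - u) * ks u + Pc (t + b * I - u) * kx u)).re =
      ∫ u : ℝ, (Pc (t + b * I - u) * ks u + Pc (t + b * I - u) * kx u).re := hr1.symm
  rw [hr2] at hre
  have hp : ∀ᵐ u : ℝ, (Pc (t + b * I - u) * ks u + Pc (t + b * I - u) * kx u).re =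
      Pb b (t - u) * V u := by
    filter_upwards [ae_ne 0] with u hu
    have hu' : u ≠ 0 := by simpa [sub_eq_zero, eq_comm] using hu
    have hk : ks u + kx u = ((V u : ℝ) : ℂ) := by
      unfold ks kx
      rw [V_eq hu']
      push_cast
      ring
    rw [← mul_add, hk, mul_comm, Complex.re_ofReal_mul, mul_comm]
    unfold Pb
    congr 3
    push_cast
    ring
  rw [integral_congr_ae hp] at hre
  have hi : Integrable fun u : ℝ => Pb b (t - u) * V u := by
    refine (i3.re).congr ?_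
    filter_upwards [hp] with u hu
    exact hu
  have hs : ∀ g : ℝ → ℝ, ∫ u, g (t - u) = ∫ s, g s := fun g => integral_sub_left_eq_self g volume t
  have h5 : (fun s => Pb b s * V (t - s)) = fun s => (fun u => Pb b (t - u) * V u) (t - s) := by
    funext s
    simp only [sub_sub_cancel]
  constructor
  · rw [h5]
    exact hi.comp_sub_left t
  · rw [h5, hs (fun u => Pb b (t - u) * V u), hre]
    have hv : NUAct.vc (t + b * I) = NUAct.vc (t + b * I) := rfl
    have h6 : (NUAct.vc ((t : ℂ) + b * I)).re = (NUMF.vc ((t : ℂ) + b * I)).re := by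
      -- both are `log |cosh 2z + 1| - log |cosh 2z - r|`
      rw [NUMF.vc_re]
      unfold NUAct.vc Ly
      have hc : ∀ y : ℝ, |((t : ℂ) + b * I).im| + |y| < Real.pi / 2 →
          Complex.cosh ((t : ℂ) + b * I + y * I) ≠ 0 ∧ Complex.cosh ((t : ℂ) + b * I - y * I) ≠ 0 :=
        fun y hy => ⟨Complex.slitPlane_ne_zero (cosh_slit (im_add_lt hy)),
          Complex.slitPlane_ne_zero (cosh_slit (im_sub_lt hy))⟩
      obtain ⟨p1, p2⟩ := hc 0 (a0 hz)
      obtain ⟨p3, p4⟩ := hc (3 * l) (a3 hz)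
      have hprod : ∀ (z : ℂ) (y : ℝ), Complex.cosh (2 * z) + Complex.cos (2 * y) =
          2 * (Complex.cosh (z + y * I) * Complex.cosh (z - y * I)) := by
        intro z y
        rw [Complex.cosh_add, Complex.cosh_sub, Complex.cosh_mul_I, Complex.sinh_mul_I,
          Complex.cosh_two_mul, Complex.cos_two_mul]
        have q1 := Complex.cosh_sq z
        have q2 := Complex.sin_sq_add_cos_sq (y : ℂ)
        have q3 := Complex.I_sq
        linear_combination (1 - 2 * Complex.cos (y : ℂ) ^ 2) * q1 -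
          2 * Complex.sinh z ^ 2 * q2 + 2 * Complex.sinh z ^ 2 * Complex.sin (y : ℂ) ^ 2 * q3
      have g1 : Complex.cosh (2 * ((t : ℂ) + b * I)) + 1 =
          2 * (Complex.cosh ((t : ℂ) + b * I + (0 : ℝ) * I) *
            Complex.cosh ((t : ℂ) + b * I - (0 : ℝ) * I)) := by
        rw [← hprod]
        simp
      have g2 : Complex.cosh (2 * ((t : ℂ) + b * I)) - NUMF.r =
          2 * (Complex.cosh ((t : ℂ) + b * I + (3 * l : ℝ) * I) *
            Complex.cosh ((t : ℂ) + b * I - (3 * l : ℝ) * I)) := by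
        rw [← hprod]
        have : Complex.cos (2 * ((3 * l : ℝ) : ℂ)) = -(NUMF.r : ℂ) := by
          have h8 : (2 * ((3 * l : ℝ) : ℂ)) = ((2 * (3 * l) : ℝ) : ℂ) := by push_cast; ring
          rw [h8, ← Complex.ofReal_cos]
          have h9 : Real.cos (2 * (3 * l)) = -NUMF.r := by
            have : 2 * (3 * l) = Real.pi - Real.pi / 4 := by unfold l; ring
            rw [this, Real.cos_pi_sub, NUMF.r_eq]
          rw [h9]
          push_cast
          rfl
        rw [this]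
        ring
      rw [g1, g2, norm_mul, norm_mul, norm_mul, norm_mul,
        Real.log_mul (by simp) (mul_ne_zero (norm_ne_zero_iff.2 p1) (norm_ne_zero_iff.2 p2)),
        Real.log_mul (by simp) (mul_ne_zero (norm_ne_zero_iff.2 p3) (norm_ne_zero_iff.2 p4)),
        Real.log_mul (norm_ne_zero_iff.2 p1) (norm_ne_zero_iff.2 p2),
        Real.log_mul (norm_ne_zero_iff.2 p3) (norm_ne_zero_iff.2 p4)]
      simp only [Complex.sub_re, Complex.add_re, Complex.log_re, Complex.ofReal_re]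
      ring
    exact h6

/-! ### transform -/

/-- **the transform of `Pb`** -/
theorem Pb_forward (hb0 : 0 ≤ b) (hb : b < l) (k : ℝ) :
    Integrable (fun t => Pb b t * Real.cos (k * t)) ∧
      ∫ t, Pb b t * Real.cos (k * t) = Real.cosh (k * b) / (2 * ck1 k - 1) := by
  have hi : Integrable fun t => Pb b t * Real.cos (k * t) := by
    refine (Pb_integrable hb0 hb).mul_bdd (c := 1) (Continuous.aestronglyMeasurable (by fun_prop)) ?_
    refine Eventually.of_forall fun t => ?_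
    rw [Real.norm_eq_abs]
    exact Real.abs_cos_le_one _
  refine ⟨hi, ?_⟩
  have hbd : ∀ z : ℂ, |z.im| ≤ b → ‖Complex.cos (k * z)‖ ≤
      Real.exp (|k| * b) * Real.exp (0 * |z.re|) := by
    intro z hz
    rw [zero_mul, Real.exp_zero, mul_one]
    have h1 : ‖Complex.cos (k * z)‖ ≤ Real.cosh ((k : ℂ) * z).im := by
      have h2 : Complex.cos ((k : ℂ) * z) = Complex.cosh (((k : ℂ) * z) * I) := by
        rw [Complex.cosh_mul_I]
      rw [h2]
      have h3 := two_norm_cosh_sq ((k : ℂ) * z * I)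
      have h4 : ((k : ℂ) * z * I).re = -((k : ℂ) * z).im := by simp
      rw [h4, mul_neg, Real.cosh_neg] at h3
      have h5 := Real.cos_le_one (2 * ((k : ℂ) * z * I).im)
      have h6 : Real.cosh (2 * ((k : ℂ) * z).im) = 2 * Real.cosh (((k : ℂ) * z).im) ^ 2 - 1 := by
        rw [Real.cosh_two_mul]
        have := Real.cosh_sq (((k : ℂ) * z).im)
        linarith
      have h7 : ‖Complex.cosh ((k : ℂ) * z * I)‖ ^ 2 ≤ Real.cosh (((k : ℂ) * z).im) ^ 2 := by
        linarith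
      exact (pow_le_pow_iff_left₀ (norm_nonneg _) (Real.cosh_pos _).le two_ne_zero).1 h7
    refine h1.trans ?_
    have h2 : ((k : ℂ) * z).im = k * z.im := by simp
    rw [h2, ← Real.cosh_abs]
    have h3 : |k * z.im| ≤ |k| * b := by
      rw [abs_mul]
      gcongr
    calc Real.cosh |k * z.im| ≤ Real.exp |k * z.im| := by
          rw [Real.cosh_eq]
          have h4 : Real.exp (-|k * z.im|) ≤ Real.exp |k * z.im| :=
            Real.exp_le_exp.2 (by have := abs_nonneg (k * z.im); linarith)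
          linarith
      _ ≤ _ := Real.exp_le_exp.2 h3
  obtain ⟨i0, i1, i2, e⟩ := avg (f := fun z => Complex.cos (k * z)) (A := Real.exp (|k| * b)) (c := 0)
    hb0 hb (by norm_num) (fun z _ => by fun_prop) hbd
  obtain ⟨j1, j2⟩ := P_forward k
  have hsin : ∫ t, P t * Real.sin (k * t) = 0 := (P_sin k).2
  have c1 : ∀ s : ℝ, (P s : ℂ) * Complex.cos (k * (s + b * I)) =
      ((Real.cosh (k * b) : ℝ) : ℂ) * ((P s * Real.cos (k * s) : ℝ) : ℂ) -
        (((Real.sinh (k * b) : ℝ) : ℂ) * I) * ((P s * Real.sin (k * s) : ℝ) : ℂ) := by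
    intro s
    have h1 : (k : ℂ) * (s + b * I) = ((k * s : ℝ) : ℂ) + ((k * b : ℝ) : ℂ) * I := by
      push_cast; ring
    rw [h1, Complex.cos_add, Complex.cos_mul_I, Complex.sin_mul_I]
    push_cast
    ring
  have c2 : ∀ s : ℝ, (P s : ℂ) * Complex.cos (k * (s - b * I)) =
      ((Real.cosh (k * b) : ℝ) : ℂ) * ((P s * Real.cos (k * s) : ℝ) : ℂ) +
        (((Real.sinh (k * b) : ℝ) : ℂ) * I) * ((P s * Real.sin (k * s) : ℝ) : ℂ) := by
    intro s
    have h1 : (k : ℂ) * (s - b * I) = ((k * s : ℝ) : ℂ) - ((k * b : ℝ) : ℂ) * I := by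
      push_cast; ring
    rw [h1, Complex.cos_sub, Complex.cos_mul_I, Complex.sin_mul_I]
    push_cast
    ring
  have m1 : Integrable fun s : ℝ => ((Real.cosh (k * b) : ℝ) : ℂ) * ((P s * Real.cos (k * s) : ℝ) : ℂ) :=
    (j1.ofReal).const_mul _
  have m2 : Integrable fun s : ℝ =>
      (((Real.sinh (k * b) : ℝ) : ℂ) * I) * ((P s * Real.sin (k * s) : ℝ) : ℂ) :=
    ((P_sin k).1.ofReal).const_mul _
  simp_rw [c1, c2] at e
  have o1 : ∫ s : ℝ, ((P s * Real.cos (k * s) : ℝ) : ℂ) = ((∫ s : ℝ, P s * Real.cos (k * s) : ℝ) : ℂ) :=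
    integral_ofReal
  have o2 : ∫ s : ℝ, ((P s * Real.sin (k * s) : ℝ) : ℂ) = ((∫ s : ℝ, P s * Real.sin (k * s) : ℝ) : ℂ) :=
    integral_ofReal
  rw [integral_sub m1 m2, integral_add m1 m2, integral_const_mul, integral_const_mul,
    o1, o2, j2, hsin] at e
  have h0 : ∀ s : ℝ, (Pb b s : ℂ) * Complex.cos (k * s) = ((Pb b s * Real.cos (k * s) : ℝ) : ℂ) := by
    intro s
    push_cast
    ring
  simp_rw [h0] at e
  have o3 : ∫ s : ℝ, ((Pb b s * Real.cos (k * s) : ℝ) : ℂ) =
      ((∫ s : ℝ, Pb b s * Real.cos (k * s) : ℝ) : ℂ) := integral_ofReal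
  rw [o3] at e
  have h1 : ((∫ t, Pb b t * Real.cos (k * t) : ℝ) : ℂ) =
      ((Real.cosh (k * b) / (2 * ck1 k - 1) : ℝ) : ℂ) := by
    rw [e]
    push_cast
    ring
  exact_mod_cast h1

theorem integral_Pb (hb0 : 0 ≤ b) (hb : b < l) : ∫ t, Pb b t = 1 := by
  have h := (Pb_forward hb0 hb 0).2
  simp only [zero_mul, Real.cos_zero, mul_one, Real.cosh_zero] at h
  rw [h]
  unfold ck1
  simp
  norm_num

end NUMFH

end
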